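import Pool.Agent.Lib.MP_65b7ad_nt.DC.Cnt

/-!
The triples of coefficients that are not good.
-/

open Finset

namespace Pool.Agent.Lib.MP_65b7ad_nt.DC

open Classical

namespace Bad

lemma sqs {B : ℕ} (hB : 1 ≤ B) (H : ℕ) : ∑ b ∈ Ioc B H, ((b : ℝ) ^ 2)⁻¹ ≤ (B : ℝ)⁻¹ := by
  rcases le_total B H with h | h
  · exact (sum_Ioc_inv_sq_le_sub (by omega) h).trans (sub_le_self _ (by positivity))
  · rw [Ioc_eq_empty (by omega), sum_empty]
    positivity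

lemma mult (d H : ℕ) : (#{n ∈ Icc 1 H | d ∣ n} : ℝ) ≤ H / d := by
  rw [show Icc 1 H = Ioc 0 H from rfl, Nat.Ioc_filter_dvd_card_eq_div]
  exact Nat.cast_div_le

lemma sqd {B : ℕ} (hB : 1 ≤ B) (H : ℕ) :
    (#{n ∈ Icc 1 H | ∃ b, B < b ∧ b ^ 2 ∣ n} : ℝ) ≤ H / B := by
  have h : {n ∈ Icc 1 H | ∃ b, B < b ∧ b ^ 2 ∣ n} ⊆
      (Ioc B H).biUnion fun b => {n ∈ Icc 1 H | b ^ 2 ∣ n} := fun n hn => by
    obtain ⟨h1, b, h2, h3⟩ := mem_filter.1 hn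
    obtain ⟨h4, h5⟩ := mem_Icc.1 h1
    exact mem_biUnion.2 ⟨b, mem_Ioc.2 ⟨h2, (Nat.le_of_dvd h4 ((dvd_pow_self b two_ne_zero).trans
      h3)).trans h5⟩, mem_filter.2 ⟨h1, h3⟩⟩
  refine le_trans (Nat.cast_le.2 ((card_le_card h).trans card_biUnion_le)) ?_
  rw [Nat.cast_sum, div_eq_mul_inv]
  refine (sum_le_sum fun b _ => mult (b ^ 2) H).trans ?_
  simp only [div_eq_mul_inv, Nat.cast_pow, ← mul_sum]
  gcongr
  exact sqs hB H

lemma com {B : ℕ} (hB : 1 ≤ B) (H : ℕ) :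
    (#{r ∈ Icc 1 H ×ˢ Icc 1 H | ∃ b, B < b ∧ b ∣ r.1 ∧ b ∣ r.2} : ℝ) ≤ H ^ 2 / B := by
  have h : {r ∈ Icc 1 H ×ˢ Icc 1 H | ∃ b, B < b ∧ b ∣ r.1 ∧ b ∣ r.2} ⊆ (Ioc B H).biUnion
      fun b => {n ∈ Icc 1 H | b ∣ n} ×ˢ {n ∈ Icc 1 H | b ∣ n} := fun r hr => by
    obtain ⟨h1, b, h2, h3, h6⟩ := mem_filter.1 hr
    obtain ⟨h7, h8⟩ := mem_product.1 h1
    obtain ⟨h4, h5⟩ := mem_Icc.1 h7
    exact mem_biUnion.2 ⟨b, mem_Ioc.2 ⟨h2, (Nat.le_of_dvd h4 h3).trans h5⟩,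
      mem_product.2 ⟨mem_filter.2 ⟨h7, h3⟩, mem_filter.2 ⟨h8, h6⟩⟩⟩
  refine le_trans (Nat.cast_le.2 ((card_le_card h).trans card_biUnion_le)) ?_
  rw [Nat.cast_sum, div_eq_mul_inv]
  refine (sum_le_sum (g := fun b : ℕ => (H : ℝ) ^ 2 * ((b : ℝ) ^ 2)⁻¹) fun b _ => ?_).trans ?_
  · rw [card_product, Nat.cast_mul, ← sq, ← div_eq_mul_inv, ← div_pow]
    gcongr
    exact mult b H
  · rw [← mul_sum]
    gcongr
    exact sqs hB H

lemma om (K H : ℕ) :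
    (#{n ∈ Icc 1 H | K < #n.primeFactors} : ℝ) * 2 ^ K ≤ H * (1 + Real.log H) := by
  have h1 : #{n ∈ Icc 1 H | K < #n.primeFactors} * 2 ^ K ≤ ∑ n ∈ Ioc 0 H, H / n := by
    rw [← ArithmeticFunction.sum_Ioc_sigma0_eq_sum_div, ← smul_eq_mul]
    refine (card_nsmul_le_sum _ _ _ fun n hn => ?_).trans
      (sum_le_sum_of_subset (filter_subset _ _))
    obtain ⟨h2, h3⟩ := mem_filter.1 hn
    have h0 : n ≠ 0 := by have := (mem_Icc.1 h2).1; omega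
    rw [ArithmeticFunction.sigma_zero_apply, Nat.card_divisors h0]
    refine (Nat.pow_le_pow_right two_pos h3.le).trans (pow_card_le_prod _ _ _ fun p hp => ?_)
    have := (Nat.prime_of_mem_primeFactors hp).factorization_pos_of_dvd h0
      (Nat.dvd_of_mem_primeFactors hp)
    omega
  have h2 := harmonic_le_one_add_log H
  rw [harmonic_eq_sum_Icc] at h2
  push_cast at h2
  have h3 : (_ : ℝ) ≤ _ := Nat.cast_le.2 h1
  rw [Nat.cast_mul, Nat.cast_pow, Nat.cast_two] at h3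
  refine h3.trans (le_trans ?_ (mul_le_mul_of_nonneg_left h2 (by positivity)))
  rw [mul_sum, Nat.cast_sum]
  exact sum_le_sum fun n _ => Nat.cast_div_le

lemma smo {z K H : ℕ} (hz : 2 ≤ z) (h : z ^ (2 * K) ≤ H) :
    (#{n ∈ Icc 1 H | #n.primeFactors ≤ K ∧ ∀ p : ℕ, p.Prime → p ∣ n → p ≤ z} : ℝ) ≤
      3 * H * (3 / 4) ^ K := by
  have q1 : (1 : ℝ) ≤ (4 / 3) ^ K := one_le_pow₀ (by norm_num)
  have b1 := Nat.le_ceil ((4 / 3 : ℝ) ^ K)
  have b2 := Nat.ceil_lt_add_one (zero_le_one.trans q1)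
  generalize ⌈(4 / 3 : ℝ) ^ K⌉₊ = B at b1 b2
  have hB : 1 ≤ B := by exact_mod_cast q1.trans b1
  have s : {n ∈ Icc 1 H | #n.primeFactors ≤ K ∧ ∀ p : ℕ, p.Prime → p ∣ n → p ≤ z} ⊆
      {n ∈ Icc 1 H | ∃ b, B < b ∧ b ^ 2 ∣ n} ∪
        (Icc 1 B ×ˢ Icc 1 (z ^ K)).image fun r => r.1 ^ 2 * r.2 := fun n hn => by
    obtain ⟨h1, h2, h3⟩ := mem_filter.1 hn
    obtain ⟨a, b, rfl, ha⟩ := Nat.sq_mul_squarefree n
    have h0 : b ^ 2 * a ≠ 0 := by have := (mem_Icc.1 h1).1; omega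
    rcases lt_or_ge B b with hb | hb
    · exact mem_union_left _ (mem_filter.2 ⟨h1, b, hb, dvd_mul_right _ _⟩)
    refine mem_union_right _ (mem_image.2 ⟨(b, a), mem_product.2 ⟨mem_Icc.2 ⟨?_, hb⟩,
      mem_Icc.2 ⟨ha.ne_zero.bot_lt, ?_⟩⟩, rfl⟩)
    · exact Nat.pos_of_ne_zero (by rintro rfl; simp at h0)
    · rw [← Nat.prod_primeFactors_of_squarefree ha]
      refine (prod_le_pow_card _ _ z fun p hp => h3 p (Nat.prime_of_mem_primeFactors hp)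
        ((Nat.dvd_of_mem_primeFactors hp).mul_left _)).trans (Nat.pow_le_pow_right (by omega)
          ((card_le_card (Nat.primeFactors_mono (dvd_mul_left _ _) h0)).trans h2))
  have c := (card_le_card s).trans ((card_union_le _ _).trans (Nat.add_le_add_left card_image_le _))
  rw [card_product, Nat.card_Icc, Nat.card_Icc, Nat.add_sub_cancel, Nat.add_sub_cancel] at c
  have c' : (_ : ℝ) ≤ _ := Nat.cast_le.2 c
  push_cast at c'
  have e : (3 / 4 : ℝ) ^ K = ((4 / 3) ^ K)⁻¹ := by rw [← inv_pow]; norm_num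
  have d1 : (H : ℝ) / B ≤ H / (4 / 3) ^ K := by gcongr
  have d2 : ((4 / 3 : ℝ) ^ K) ^ 2 ≤ (z : ℝ) ^ K := by
    rw [← pow_mul, mul_comm, pow_mul]
    have : (2 : ℝ) ≤ z := by exact_mod_cast hz
    gcongr
    linarith
  have d3 : ((z : ℝ) ^ K) ^ 2 ≤ H := by
    rw [← pow_mul, mul_comm]
    exact_mod_cast h
  have d4 : (B : ℝ) * z ^ K ≤ 2 * (H / (4 / 3) ^ K) := by
    rw [← mul_div_assoc, le_div_iff₀ (by positivity)]
    have z0 : (0 : ℝ) ≤ z ^ K := by positivity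
    nlinarith [mul_le_mul_of_nonneg_right d2 z0, mul_le_mul_of_nonneg_right
      (show (B : ℝ) ≤ 2 * (4 / 3) ^ K by linarith) (mul_nonneg z0 (zero_le_one.trans q1))]
  rw [e, ← div_eq_mul_inv, mul_div_assoc]
  linarith [sqd hB H]

lemma ngd {z K H : ℕ} (hH : 2 ≤ H) (h : z ^ (2 * K) ≤ H) : (#{n ∈ Icc 1 H | ¬ Gd z K n} : ℝ) ≤
    H * (1 / √H + 20 * ((3 / 4) ^ K * Real.log H ^ 2)) := by
  have s : {n ∈ Icc 1 H | ¬ Gd z K n} ⊆ {n ∈ Icc 1 H | K < #n.primeFactors} ∪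
      {n ∈ Icc 1 H | #n.primeFactors ≤ K ∧ ∀ p : ℕ, p.Prime → p ∣ n → p ≤ z} := fun n hn => by
    obtain ⟨h1, h2⟩ := mem_filter.1 hn
    rcases lt_or_ge K #n.primeFactors with k | k
    · exact mem_union_left _ (mem_filter.2 ⟨h1, k⟩)
    · exact mem_union_right _ (mem_filter.2 ⟨h1, k, fun p hp hd =>
        le_of_not_gt fun hz => h2 ⟨k, p, hp, hz, hd⟩⟩)
  have c : (_ : ℝ) ≤ _ := Nat.cast_le.2 ((card_le_card s).trans (card_union_le _ _))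
  push_cast at c
  have H2 : (2 : ℝ) ≤ H := by exact_mod_cast hH
  have L : 1 / 2 ≤ Real.log H :=
    le_trans (by linarith [Real.log_two_gt_d9]) (Real.log_le_log two_pos H2)
  have q0 : (0 : ℝ) ≤ H * (3 / 4) ^ K := by positivity
  have a1 : (#{n ∈ Icc 1 H | K < #n.primeFactors} : ℝ) ≤ H * (3 / 4) ^ K * (1 + Real.log H) := by
    refine ((le_div_iff₀ (by positivity)).2 (om K H)).trans ?_
    rw [div_eq_mul_inv, ← inv_pow, mul_right_comm]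
    gcongr
    norm_num
  have r1 : 1 ≤ H * (1 / √(H : ℝ)) := by
    rw [mul_one_div, Real.div_sqrt]
    exact Real.one_le_sqrt.2 (by linarith)
  have a2 : (#{n ∈ Icc 1 H | #n.primeFactors ≤ K ∧ ∀ p : ℕ, p.Prime → p ∣ n → p ≤ z} : ℝ) ≤
      1 + 3 * H * (3 / 4) ^ K := by
    rcases le_or_gt 2 z with hz | hz
    · linarith [smo hz h]
    · refine le_trans ?_ (le_add_of_nonneg_right (by positivity))
      rw [Nat.cast_le_one, card_le_one_iff_subset_singleton]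
      refine ⟨1, fun n hn => mem_singleton.2 (by_contra fun h1 => ?_)⟩
      obtain ⟨p, hp, hd⟩ := Nat.exists_prime_and_dvd h1
      have := (mem_filter.1 hn).2.2 p hp hd
      have := hp.two_le
      omega
  nlinarith [mul_le_mul_of_nonneg_left
    (show 4 + Real.log H ≤ 20 * Real.log H ^ 2 by nlinarith) q0]

/-- The bad pairs. -/
noncomputable def F (w z K H : ℕ) : Finset (ℕ × ℕ) := {r ∈ Icc 1 H ×ˢ Icc 1 H |
  ¬ Gd z K r.1 ∨ (∃ b, w < b ∧ b ^ 2 ∣ r.1) ∨ ∃ b, w < b ∧ b ∣ r.1 ∧ b ∣ r.2}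

lemma cF {w z K H : ℕ} (hw : 1 ≤ w) (hH : 2 ≤ H) (h : z ^ (2 * K) ≤ H) : (#(F w z K H) : ℝ) ≤
    20 * (H : ℝ) ^ 2 * (1 / w + 1 / √H + (3 / 4) ^ K * Real.log H ^ 2) := by
  have s : F w z K H ⊆ ({n ∈ Icc 1 H | ¬ Gd z K n} ×ˢ Icc 1 H ∪
      {n ∈ Icc 1 H | ∃ b, w < b ∧ b ^ 2 ∣ n} ×ˢ Icc 1 H) ∪
      {r ∈ Icc 1 H ×ˢ Icc 1 H | ∃ b, w < b ∧ b ∣ r.1 ∧ b ∣ r.2} := fun r hr => by
    simp only [F, mem_filter, mem_union, mem_product] at hr ⊢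
    obtain ⟨⟨h1, h2⟩, h3 | h3 | h3⟩ := hr
    exacts [.inl (.inl ⟨⟨h1, h3⟩, h2⟩), .inl (.inr ⟨⟨h1, h3⟩, h2⟩), .inr ⟨⟨h1, h2⟩, h3⟩]
  have c := (card_le_card s).trans ((card_union_le _ _).trans
    (Nat.add_le_add_right (card_union_le _ _) _))
  rw [card_product, card_product, Nat.card_Icc, Nat.add_sub_cancel] at c
  have c' : (_ : ℝ) ≤ _ := Nat.cast_le.2 c
  push_cast at c'
  have H0 : (0 : ℝ) ≤ H := Nat.cast_nonneg H
  have a1 := mul_le_mul_of_nonneg_right (ngd hH h) H0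
  have a2 := mul_le_mul_of_nonneg_right (sqd hw H) H0
  have a3 := com hw H
  rw [div_eq_mul_one_div] at a2 a3
  have b1 : (0 : ℝ) ≤ H ^ 2 * (1 / w) := by positivity
  have b2 : (0 : ℝ) ≤ H ^ 2 * (1 / √H) := by positivity
  nlinarith

end Bad

open Bad in
theorem bad : BadSt := by
  refine ⟨60, by norm_num, fun w z K H hw hH h => ?_⟩
  have s : {t ∈ Box H | ¬ Good w z K t} ⊆
      ((F w z K H ×ˢ Icc 1 H).image (fun r => (r.1.1, r.1.2, r.2)) ∪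
        (F w z K H ×ˢ Icc 1 H).image (fun r => (r.2, r.1.1, r.1.2))) ∪
        (F w z K H ×ˢ Icc 1 H).image (fun r => (r.1.2, r.2, r.1.1)) := by
    rintro ⟨a, b, c⟩ ht
    obtain ⟨h1, h2⟩ := mem_filter.1 ht
    obtain ⟨ha, hb⟩ := mem_product.1 h1
    obtain ⟨hb, hc⟩ := mem_product.1 hb
    have k : (a, b) ∈ F w z K H ∨ (b, c) ∈ F w z K H ∨ (c, a) ∈ F w z K H := by
      by_contra k
      simp only [F, mem_filter, mem_product, not_or, not_and, not_not, not_exists] at k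
      obtain ⟨⟨k1, k2, k3⟩, ⟨k4, k5, k6⟩, k7, k8, k9⟩ :=
        And.intro (k.1 ⟨ha, hb⟩) (And.intro (k.2.1 ⟨hb, hc⟩) (k.2.2 ⟨hc, ha⟩))
      refine h2 ⟨k1, k4, k7, fun p hp hw' hd => ?_⟩
      have cp : ∀ {n : ℕ}, ¬ p ∣ n → (p ^ 2).Coprime n := fun hn =>
        ((Nat.Prime.coprime_iff_not_dvd hp).2 hn).pow_left 2
      dsimp only at hd
      by_cases da : p ∣ a
      · exact k2 p hw' ((cp (k3 p hw' da)).dvd_of_dvd_mul_right
          ((cp fun dc => k9 p hw' dc da).dvd_of_dvd_mul_right hd))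
      rw [mul_assoc] at hd
      replace hd := (cp da).dvd_of_dvd_mul_left hd
      by_cases db : p ∣ b
      · exact k5 p hw' ((cp (k6 p hw' db)).dvd_of_dvd_mul_right hd)
      · exact k8 p hw' ((cp db).dvd_of_dvd_mul_left hd)
    rcases k with k | k | k
    · exact mem_union_left _ (mem_union_left _
        (mem_image.2 ⟨((a, b), c), mem_product.2 ⟨k, hc⟩, rfl⟩))
    · exact mem_union_left _ (mem_union_right _
        (mem_image.2 ⟨((b, c), a), mem_product.2 ⟨k, ha⟩, rfl⟩))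
    · exact mem_union_right _ (mem_image.2 ⟨((c, a), b), mem_product.2 ⟨k, hb⟩, rfl⟩)
  have c := (card_le_card s).trans ((card_union_le _ _).trans (Nat.add_le_add
    ((card_union_le _ _).trans (Nat.add_le_add card_image_le card_image_le)) card_image_le))
  rw [card_product, Nat.card_Icc, Nat.add_sub_cancel] at c
  have c' : (_ : ℝ) ≤ _ := Nat.cast_le.2 c
  push_cast at c'
  have a := mul_le_mul_of_nonneg_right (cF hw hH h) (Nat.cast_nonneg (α := ℝ) H)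
  nlinarith

end Pool.Agent.Lib.MP_65b7ad_nt.DC
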