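import Pool.Agent.Lib.MP_65b7ad_nt.DC.Cnt2
import Pool.Agent.Lib.MP_65b7ad_nt.DS.St

/-!
Diagonal plane cubics: the bridge between the two forms of the bound in one context.
-/

open Finset

noncomputable section

namespace Pool.Agent.Lib.MP_65b7ad_nt.DC

open Classical

namespace Br

variable {l : ℕ} {P : DS.Loc}

theorem c_mul (h : P.Ok l) {m n : ℕ} (hm : m ≠ 0) (hn : n ≠ 0) :
    P.c ((m * n : ℕ) : ℤ) = P.c (m : ℤ) + P.c (n : ℤ) := by
  rw [← h.c_mul _ _ (by exact_mod_cast hm) (by exact_mod_cast hn)]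
  push_cast
  rfl

theorem v_eq (h : P.Ok l) {n : ℕ} (hn : n ≠ 0) : P.v (n : ℤ) = padicValNat l n := by
  rw [h.v_int _ (by exact_mod_cast hn), padicValInt.of_nat]

theorem root (hl : l.Prime) (h : P.Ok l) {r : ℤ} (hr : P.sm (P.om - r)) :
    (l : ℤ) ∣ r ^ 2 + r + 1 := by
  have := Fact.mk hl
  by_contra hn
  have n0 : r ^ 2 + r + 1 ≠ 0 := fun e => hn (e ▸ dvd_zero _)
  have o0 : P.om ≠ 0 := fun e => by simpa [e] using h.om_eq
  have v1 : P.v 1 = 0 := by simpa using h.v_int 1 one_ne_zero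
  have vo : P.v P.om = 0 := by
    have e : P.om * (P.om * P.om) = 1 := by linear_combination (P.om - 1) * h.om_eq
    have := h.v_mul P.om (P.om * P.om) o0 (mul_ne_zero o0 o0)
    rw [e, v1, h.v_mul _ _ o0 o0] at this
    omega
  have e : ((r ^ 2 + r + 1 : ℤ) : P.F) = (P.om - r) * (-(P.om + (r + 1 : ℤ))) := by
    push_cast
    linear_combination h.om_eq
  have v0 := h.v_int _ n0
  rw [padicValInt.eq_zero_of_not_dvd hn] at v0
  have f0 : ((r ^ 2 + r + 1 : ℤ) : P.F) ≠ 0 := by exact_mod_cast n0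
  rw [e] at v0 f0
  have a0 := left_ne_zero_of_mul f0
  have b0 := neg_ne_zero.1 (right_ne_zero_of_mul f0)
  have vm : P.v (-1) = 0 := by simpa [padicValInt] using h.v_int (-1) (by norm_num)
  rw [h.v_mul _ _ a0 (neg_ne_zero.2 b0), neg_eq_neg_one_mul, h.v_mul _ _ (by norm_num) b0,
    vm] at v0
  have i1 : 0 ≤ P.v (P.om + (r + 1 : ℤ)) := by
    by_cases z : r + 1 = 0
    · rw [z, Int.cast_zero, add_zero, vo]
    · refine le_trans ?_ (h.v_add _ _ o0 (by exact_mod_cast z) b0)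
      rw [vo, h.v_int _ z]
      exact le_min le_rfl (Int.natCast_nonneg _)
  rcases hr with hr | hr
  · exact a0 hr
  · push_cast at v0 i1 hr
    omega

theorem pw_eq (idx : DS.IdxSt) (hl : l.Prime) (h1 : l % 3 = 1) (h : P.Ok l) {s t : ℕ}
    (hs : ¬ l ∣ s) (ht : ¬ l ∣ t) (e : P.c (s : ℤ) = P.c (t : ℤ)) : pw l s = pw l t := by
  have := Fact.mk hl
  obtain ⟨r, hr⟩ := h.om_int h1
  have i4 := (idx l P hl (by omega) h).2.2.2 h1 r
  have r0 : (r : ZMod l) ^ 2 + r + 1 = 0 := by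
    exact_mod_cast (ZMod.intCast_zmod_eq_zero_iff_dvd _ l).2 (root hl h hr)
  have key : ∀ s : ℕ, ¬ l ∣ s → pw l s = (r : ZMod l) ^ (P.c (s : ℤ)).val := fun s hs => by
    have s0 : (s : ZMod l) ≠ 0 := fun z => hs ((ZMod.natCast_eq_zero_iff s l).1 z)
    have c3 : pw l s ^ 3 = 1 := by
      rw [pw, ← pow_mul, show (l - 1) / 3 * 3 = l - 1 by omega]
      exact ZMod.pow_card_sub_one_eq_one s0
    have f : (pw l s - r ^ 0) * ((pw l s - r ^ 1) * (pw l s - r ^ 2)) = 0 := by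
      linear_combination c3 + (pw l s - 1) * (r - 1 - pw l s) * r0
    obtain ⟨j, hj, e⟩ : ∃ j : ℕ, j < 3 ∧ pw l s = (r : ZMod l) ^ j := by
      rcases mul_eq_zero.1 f with f | f
      · exact ⟨0, by norm_num, sub_eq_zero.1 f⟩
      · rcases mul_eq_zero.1 f with f | f
        · exact ⟨1, by norm_num, sub_eq_zero.1 f⟩
        · exact ⟨2, by norm_num, sub_eq_zero.1 f⟩
    rw [i4 s j hr (by exact_mod_cast hs) ((ZMod.intCast_zmod_eq_zero_iff_dvd _ l).1 (by
      push_cast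
      exact sub_eq_zero.2 e)), ZMod.val_natCast, Nat.mod_eq_of_lt hj, e]
  rw [key s hs, key t ht, e]

theorem els (idx : DS.IdxSt) (hl : l.Prime) (h1 : l % 3 = 1) (h : P.Ok l) {A B C : ℕ}
    (h2 : ¬ l ^ 2 ∣ A * B * C) (e : P.T ((B * C ^ 2 : ℕ) : ℤ) ((A * C ^ 2 : ℕ) : ℤ) = 0) :
    (l ∣ A → pw l B = pw l C) ∧ (l ∣ B → pw l A = pw l C) ∧ (l ∣ C → pw l A = pw l B) := by
  have := Fact.mk hl
  have n0 : A * B * C ≠ 0 := fun z => h2 (z ▸ dvd_zero _)
  have hC := right_ne_zero_of_mul n0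
  have hA := left_ne_zero_of_mul (left_ne_zero_of_mul n0)
  have hB := right_ne_zero_of_mul (left_ne_zero_of_mul n0)
  have v2 : padicValNat l A + padicValNat l B + padicValNat l C ≤ 1 := by
    rw [← padicValNat.mul hA hB, ← padicValNat.mul (mul_ne_zero hA hB) hC]
    exact Nat.lt_succ_iff.1 (not_le.1 fun z => h2 ((padicValNat_dvd_iff_le n0).2 z))
  have nd : ∀ n : ℕ, n ≠ 0 → padicValNat l n = 0 → ¬ l ∣ n := fun n hn z d => by
    have := one_le_padicValNat_of_dvd hn d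
    omega
  rw [DS.Loc.T, v_eq h (mul_ne_zero hA (pow_ne_zero 2 hC)), v_eq h (mul_ne_zero hB
    (pow_ne_zero 2 hC)), sq, c_mul h hB (mul_ne_zero hC hC), c_mul h hA (mul_ne_zero hC hC),
    c_mul h hC hC, padicValNat.mul hA (mul_ne_zero hC hC), padicValNat.mul hB (mul_ne_zero hC hC),
    padicValNat.mul hC hC] at e
  have t3 : (3 : ZMod 3) = 0 := rfl
  refine ⟨fun d => ?_, fun d => ?_, fun d => ?_⟩ <;>
    have d1 := one_le_padicValNat_of_dvd (by assumption) d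
  · rw [show padicValNat l A = 1 by omega, show padicValNat l B = 0 by omega,
      show padicValNat l C = 0 by omega] at e
    refine pw_eq idx hl h1 h (nd B hB (by omega)) (nd C hC (by omega)) ?_
    push_cast at e ⊢
    linear_combination e - P.c (C : P.F) * t3
  · rw [show padicValNat l A = 0 by omega, show padicValNat l B = 1 by omega,
      show padicValNat l C = 0 by omega] at e
    refine pw_eq idx hl h1 h (nd A hA (by omega)) (nd C hC (by omega)) ?_
    push_cast at e ⊢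
    linear_combination -e - P.c (C : P.F) * t3
  · rw [show padicValNat l A = 0 by omega, show padicValNat l B = 0 by omega,
      show padicValNat l C = 1 by omega] at e
    refine pw_eq idx hl h1 h (nd A hA (by omega)) (nd B hB (by omega)) ?_
    push_cast at e ⊢
    linear_combination e + (P.c (A : P.F) - P.c (B : P.F)) * t3

end Br

open Br in
theorem ctx2 (l1 : DS.Loc1St) (l2 : DS.Loc2St) (idx : DS.IdxSt) (h : DS.CtxSt) : CtxSt2 := by
  obtain ⟨C, K, hC, h⟩ := h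
  obtain ⟨P₀, -⟩ := l1 7 (by norm_num) rfl
  obtain ⟨P, hP⟩ : ∃ P : ℕ → DS.Loc, DS.FamOk P := by
    refine ⟨fun l => if h : ∃ P : DS.Loc, P.Ok l then h.choose else P₀, fun l hl h3 => ?_⟩
    have : ∃ P : DS.Loc, P.Ok l := by
      have : l % 3 ≠ 0 := fun z =>
        h3 ((Nat.prime_dvd_prime_iff_eq Nat.prime_three hl).1 (Nat.dvd_of_mod_eq_zero z)).symm
      rcases (by omega : l % 3 = 1 ∨ l % 3 = 2) with z | z
      · exact l1 l hl z
      · exact l2 l hl z
    simpa only [dif_pos this] using this.choose_spec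
  refine ⟨K + 32, C + 10 ^ 6, by positivity, fun a b c z X₁ X₂ S ha hb hc hz hX hS => ?_⟩
  set M : ℝ := ∏ l ∈ S, (l : ℝ) with hM
  have M1 : 1 ≤ M := by
    refine le_trans (by simp) (prod_le_prod (f := fun _ => (1 : ℝ)) (fun _ _ => zero_le_one)
      fun l hl => ?_)
    exact_mod_cast (hS l hl).1.one_lt.le
  have z1 : (1 : ℝ) ≤ z := by exact_mod_cast hz
  have r0 : 0 < (z : ℝ) ^ (1 / 72 : ℝ) := by positivity
  have MK : 1 ≤ M ^ K := one_le_pow₀ M1
  have M32 : 1 ≤ M ^ 32 := one_le_pow₀ M1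
  rcases le_or_gt X₂ z with hz2 | hz2
  · have : {r ∈ Prs (a * b * c) z X₁ X₂ | Sol (a * r.1) (b * r.2) c} = ∅ := by
      simp [Prs, Ioc_eq_empty_of_le hz2]
    rw [this, card_empty, Nat.cast_zero]
    positivity
  rcases le_or_gt (10 ^ 6 * M ^ 32) (z : ℝ) with hb6 | hb6
  · have z6 : 10 ^ 6 ≤ z := by
      have : (10 : ℝ) ^ 6 ≤ z := le_trans (le_mul_of_one_le_right (by norm_num) M32) hb6
      exact_mod_cast this
    have pp : ∀ X p : ℕ, p ∈ DS.PP a b c z X ↔ p ∈ Ioc z X ∧ p.Prime ∧ ¬ p ∣ a * b * c :=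
      fun X p => by
        simp only [DS.PP, DS.Fr, mem_filter, mem_Icc, mem_Ioc, Nat.cast_lt]
        exact ⟨fun h => ⟨⟨h.2.2, h.1.2⟩, h.2.1.1, h.2.1.2.2⟩,
          fun h => ⟨⟨by omega, h.1.2⟩, ⟨h.2.1, by omega, h.2.2⟩, h.1.1⟩⟩
    have i := h P hP a b c S z X₁ X₂ ⟨ha, hb, hc, hS⟩ (by omega) hX (by rwa [Nat.cast_prod])
    rw [Nat.cast_prod, ← hM] at i
    refine le_trans (Nat.cast_le.2 (card_le_card fun r hr => ?_)) (i.trans (add_le_add ?_ ?_))
    · simp only [Prs, mem_filter, mem_product, pp] at hr ⊢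
      exact ⟨⟨⟨hr.1.1.1, hr.1.2.1, hr.1.2.2.2.2.1⟩, hr.1.1.2, hr.1.2.2.1, hr.1.2.2.2.2.2⟩,
        hr.1.2.2.2.1, by simpa [DS.Sol, Sol, SolIn] using hr.2⟩
    · have eo : DS.om1 (a * b * c) = om1 (a * b * c) := rfl
      rw [eo]
      refine mul_le_mul (by gcongr; linarith) (Nat.cast_le.2 (card_le_card fun r hr => ?_))
        (Nat.cast_nonneg _) (by positivity)
      simp only [Prs2, mem_filter, mem_product, pp] at hr ⊢
      obtain ⟨⟨⟨a1, a2, a3⟩, b1, b2, b3⟩, e⟩ := hr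
      refine ⟨⟨⟨a1, b1⟩, a2, b2, a3, b3⟩, fun l hl h1 => ?_⟩
      obtain ⟨s1, s2, s3, s4⟩ := hS l hl
      refine els idx s1 h1 (hP l s1 s2) (fun d => s4 ?_) (e l hl)
      rw [show a * r.1 * (b * r.2) * c = a * b * c * (r.1 * r.2) by ring] at d
      refine Nat.Coprime.dvd_of_dvd_mul_right (Nat.Coprime.pow_left 2 (Nat.Coprime.mul_right
        ((Nat.coprime_primes s1 a2).2 ?_) ((Nat.coprime_primes s1 b2).2 ?_))) d
      · rintro rfl
        exact a3 s3
      · rintro rfl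
        exact b3 s3
    · have x0 : (0 : ℝ) < X₂ := by exact_mod_cast (by omega : 0 < X₂)
      have e : (X₂ : ℝ) ^ (71 / 72 : ℝ) * (z : ℝ) ^ (1 / 72 : ℝ) ≤ X₂ := by
        calc _ ≤ (X₂ : ℝ) ^ (71 / 72 : ℝ) * (X₂ : ℝ) ^ (1 / 72 : ℝ) := by
              gcongr
          _ = _ := by rw [← Real.rpow_add x0]; norm_num
      rw [le_div_iff₀ r0, mul_assoc]
      gcongr
      · linarith
      · omega
  · have c1 : (#{r ∈ Prs (a * b * c) z X₁ X₂ | Sol (a * r.1) (b * r.2) c} : ℝ) ≤ X₁ * X₂ := by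
      have : #{r ∈ Prs (a * b * c) z X₁ X₂ | Sol (a * r.1) (b * r.2) c} ≤ X₁ * X₂ := by
        refine (card_filter_le _ _).trans ((card_filter_le _ _).trans ?_)
        rw [card_product, Nat.card_Ioc, Nat.card_Ioc]
        exact Nat.mul_le_mul (Nat.sub_le _ _) (Nat.sub_le _ _)
      exact_mod_cast this
    refine c1.trans (le_add_of_nonneg_of_le (by positivity) ?_)
    have e : (z : ℝ) ^ (1 / 72 : ℝ) ≤ (C + 10 ^ 6) * M ^ (K + 32) := by
      calc _ ≤ (z : ℝ) ^ (1 : ℝ) := Real.rpow_le_rpow_of_exponent_le z1 (by norm_num)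
        _ ≤ 10 ^ 6 * M ^ 32 := by rw [Real.rpow_one]; exact hb6.le
        _ ≤ _ := by
          gcongr
          · linarith
          · omega
    rw [le_div_iff₀ r0]
    calc _ ≤ X₁ * X₂ * ((C + 10 ^ 6) * M ^ (K + 32)) := by gcongr
      _ = _ := by ring

end Pool.Agent.Lib.MP_65b7ad_nt.DC
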