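import Pool.Agent.Lib.MP_65b7ad_nt.DC.Cnt
import Pool.Agent.Lib.MP_a3b3a7_nt.M.Mert

/-! Diagonal plane cubics: the Euler product. -/

set_option autoImplicit false

open Finset

noncomputable section

namespace Pool.Agent.Lib.MP_65b7ad_nt.DC

namespace Eul

open MP_a3b3a7_nt.Mert (S S_bound)

theorem euler (a : ℕ → ℝ) (h0 : ∀ p, 0 ≤ a p) (h3 : ∀ p, a p ≤ 3) (H : ℕ) :
    ∑ n ∈ Icc 1 H, (∏ l ∈ n.primeFactors, a l) / n ≤
      Real.exp (∑ p ∈ (H + 1).primesBelow, (a p / p + 6 * (1 / (p : ℝ) ^ 2))) := by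
  set f : ℕ → ℝ := fun n => (∏ l ∈ n.primeFactors, a l) / n with hf
  have f0 : ∀ n, 0 ≤ f n := fun n => div_nonneg (prod_nonneg fun l _ => h0 l) n.cast_nonneg
  have f1 : f 1 = 1 := by simp [hf]
  have hs : ∀ {p : ℕ}, p.Prime → HasSum (fun n => f (p ^ n))
      (1 + a p / p * (1 - 1 / (p : ℝ))⁻¹) := by
    intro p hp
    have h1 : (1 : ℝ) < p := by exact_mod_cast hp.one_lt
    have h2 := (hasSum_geometric_of_lt_one (r := 1 / (p : ℝ)) (by positivity)
      ((div_lt_one (by positivity)).2 h1)).mul_left (a p / p)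
    rw [← hasSum_nat_add_iff' 1]
    simp only [range_one, sum_singleton, pow_zero, f1, add_sub_cancel_left]
    suffices e : (fun n => f (p ^ (n + 1))) = fun i => a p / p * (1 / (p : ℝ)) ^ i from e ▸ h2
    funext n
    simp only [hf, Nat.primeFactors_prime_pow n.succ_ne_zero hp, prod_singleton]
    rw [Nat.cast_pow, one_div_pow, pow_succ', div_mul_div_comm, mul_one]
  have key := (EulerProduct.summable_and_hasSum_smoothNumbers_prod_primesBelow_tsum f1
    (fun {m n} h => by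
      simp only [hf]
      rw [h.primeFactors_mul, prod_union h.disjoint_primeFactors, Nat.cast_mul, mul_div_mul_comm])
    (fun hp => (hs hp).summable.abs) (H + 1)).2
  have k2 := sum_le_hasSum (Icc 1 H) (fun n _ => Set.indicator_nonneg (fun n _ => f0 n) n)
    (hasSum_subtype_iff_indicator.1 key)
  rw [sum_congr rfl fun n hn => Set.indicator_of_mem (Nat.mem_smoothNumbers_of_lt
    (mem_Icc.1 hn).1 (Nat.lt_succ_of_le (mem_Icc.1 hn).2)) f] at k2
  rw [Real.exp_sum]
  refine k2.trans (prod_le_prod (fun p _ => tsum_nonneg fun n => f0 _) fun p hp => ?_)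
  have hp' := (Nat.mem_primesBelow.1 hp).2
  have h2 : (2 : ℝ) ≤ p := by exact_mod_cast hp'.two_le
  rw [(hs hp').tsum_eq]
  refine le_trans ?_ (Real.add_one_le_exp _)
  have e : a p / p * (1 - 1 / (p : ℝ))⁻¹ = a p / p + a p / (p * (p - 1)) := by
    have : (p : ℝ) - 1 ≠ 0 := by linarith
    field_simp
    ring
  have : a p / (p * (p - 1)) ≤ 6 * (1 / (p : ℝ) ^ 2) := by
    rw [mul_one_div, div_le_div_iff₀ (by nlinarith) (by positivity)]
    nlinarith [h3 p, h0 p, mul_nonneg (sub_nonneg.2 (h3 p)) (sq_nonneg (p : ℝ))]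
  linarith

theorem sumS {y H : ℕ} (h : y ≤ H) :
    ∑ p ∈ (H + 1).primesBelow, (if p ≤ y then 1 / (p : ℝ) else 0) = S y := by
  rw [S, ← sum_filter, ← sum_filter]
  refine sum_congr (Finset.ext fun p => ?_) fun _ _ => rfl
  simp only [mem_filter, Nat.mem_primesBelow, mem_Ioc]
  exact ⟨fun k => ⟨⟨k.1.2.pos, k.2⟩, k.1.2⟩, fun k => ⟨⟨by omega, k.2⟩, k.1.2⟩⟩

end Eul

open Eul MP_a3b3a7_nt.Mert in
theorem eul : EulSt := by
  obtain ⟨C, -, hC⟩ := S_bound
  have hs : Summable fun n : ℕ => 1 / (n : ℝ) ^ 2 := Real.summable_one_div_nat_pow.2 one_lt_two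
  refine ⟨Real.exp (25 * C + 18 * ∑' n : ℕ, 1 / (n : ℝ) ^ 2), by positivity,
    fun w y H h1 h2 h3 => ?_⟩
  have k := euler (fun l => if w < l ∧ l ≤ y then (1 / 3 : ℝ) else 3)
    (fun p => by split_ifs <;> norm_num) (fun p => by split_ifs <;> norm_num) H
  have e : ∑ p ∈ (H + 1).primesBelow, (if w < p ∧ p ≤ y then (1 / 3 : ℝ) else 3) / p =
      3 * S H - 8 / 3 * S y + 8 / 3 * S w := by
    rw [← sumS le_rfl, ← sumS h3, ← sumS (h2.trans h3), mul_sum, mul_sum, mul_sum,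
      ← sum_sub_distrib, ← sum_add_distrib]
    refine sum_congr rfl fun p hp => ?_
    rw [if_pos (Nat.le_of_lt_succ (Nat.mem_primesBelow.1 hp).1)]
    by_cases a : p ≤ w
    · rw [if_neg (by omega), if_pos a, if_pos (a.trans h2)]
      ring
    · by_cases b : p ≤ y
      · rw [if_pos ⟨by omega, b⟩, if_neg a, if_pos b]
        ring
      · rw [if_neg (by omega), if_neg a, if_neg b]
        ring
  rw [sum_add_distrib, e, ← mul_sum] at k
  have t := hs.sum_le_tsum (H + 1).primesBelow fun n _ => by positivity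
  have lg : ∀ n : ℕ, 2 ≤ n → 0 < Real.log n := fun n hn => Real.log_pos (by exact_mod_cast hn)
  have ex : ∀ (n k : ℕ), 2 ≤ n → Real.log n ^ k = Real.exp (k * Real.log (Real.log n)) :=
    fun n k hn => by rw [Real.exp_nat_mul, Real.exp_log (lg n hn)]
  have a1 := abs_le.1 (hC w h1)
  have a2 := abs_le.1 (hC y (h1.trans h2))
  have a3 := abs_le.1 (hC H (h1.trans (h2.trans h3)))
  refine (pow_le_pow_left₀ (sum_nonneg fun n _ => div_nonneg (prod_nonneg fun l _ => by
    split_ifs <;> norm_num) n.cast_nonneg) k 3).trans ?_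
  rw [ex w 8 h1, ex y 8 (h1.trans h2), ex H 9 (h1.trans (h2.trans h3)), ← Real.exp_nat_mul,
    ← Real.exp_add, ← Real.exp_add, ← Real.exp_sub, Real.exp_le_exp]
  push_cast
  linarith [a1.2, a2.1, a3.2]

end Pool.Agent.Lib.MP_65b7ad_nt.DC
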