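import Pool.Agent.Lib.MP_65b7ad_nt.DC.Cnt

/-!
Diagonal plane cubics: from positive coefficients to all coefficients, and from large heights to
all heights.
-/

open Finset Filter

noncomputable section

namespace Pool.Agent.Lib.MP_65b7ad_nt.DC

open Classical

/-- The nonzero integer triples of height at most `H` with a property. -/
def Tr (Q : ℤ → ℤ → ℤ → Prop) (H : ℕ) : Set (ℤ × ℤ × ℤ) :=
  {t | t ≠ 0 ∧ |t.1| ≤ H ∧ |t.2.1| ≤ H ∧ |t.2.2| ≤ H ∧ Q t.1 t.2.1 t.2.2}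

namespace Last

theorem fin (Q : ℤ → ℤ → ℤ → Prop) (H : ℕ) : (Tr Q H).Finite :=
  (finite_toSet (Icc (-H : ℤ) H ×ˢ Icc (-H : ℤ) H ×ˢ Icc (-H : ℤ) H)).subset fun t ht => by
    simp only [coe_product, coe_Icc, Set.mem_prod, Set.mem_Icc, ← abs_le]
    exact ⟨ht.2.1, ht.2.2.1, ht.2.2.2.1⟩

theorem sgn (a : ℤ) : ∃ s ∈ ({1, -1} : Finset ℤ), a = s * a.natAbs ∧ s ^ 3 = s := by
  rcases Int.natAbs_eq a with h | h
  · exact ⟨1, by simp, by rw [one_mul]; exact h, by norm_num⟩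
  · exact ⟨-1, by simp, by rw [neg_one_mul]; exact h, by norm_num⟩

theorem upper (H : ℕ) : (Tr (SolIn ℤ) H).ncard ≤
    8 * #{t ∈ Box H | Sol t.1 t.2.1 t.2.2} + 3 * (2 * H + 1) ^ 2 := by
  let I : Finset ℤ := Icc (-H : ℤ) H
  let E : Finset ℤ := {1, -1}
  let B := {t ∈ Box H | Sol t.1 t.2.1 t.2.2}
  let f : (ℤ × ℤ × ℤ) × ℕ × ℕ × ℕ → ℤ × ℤ × ℤ :=
    fun u => (u.1.1 * u.2.1, u.1.2.1 * u.2.2.1, u.1.2.2 * u.2.2.2)
  have hI : #I = 2 * H + 1 := by
    simp only [I, Int.card_Icc]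
    omega
  have h : Tr (SolIn ℤ) H ⊆ ↑(((E ×ˢ E ×ˢ E) ×ˢ B).image f ∪
      (({0} ×ˢ I ×ˢ I) ∪ ((I ×ˢ {0} ×ˢ I) ∪ (I ×ˢ I ×ˢ {0})))) := by
    rintro ⟨a, b, c⟩ ⟨-, ha, hb, hc, x, y, z, h0, e⟩
    dsimp only at ha hb hc e
    simp only [coe_union, Set.mem_union, mem_coe, mem_product, mem_singleton, I, mem_Icc,
      ← abs_le]
    by_cases h1 : a = 0 ∨ b = 0 ∨ c = 0
    · rcases h1 with h1 | h1 | h1
      · exact Or.inr (Or.inl ⟨h1, hb, hc⟩)
      · exact Or.inr (Or.inr (Or.inl ⟨ha, h1, hc⟩))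
      · exact Or.inr (Or.inr (Or.inr ⟨ha, hb, h1⟩))
    push Not at h1
    have b1 : 1 ≤ a.natAbs ∧ a.natAbs ≤ H := by rw [abs_le] at ha; omega
    have b2 : 1 ≤ b.natAbs ∧ b.natAbs ≤ H := by rw [abs_le] at hb; omega
    have b3 : 1 ≤ c.natAbs ∧ c.natAbs ≤ H := by rw [abs_le] at hc; omega
    obtain ⟨s, hs, e1, s3⟩ := sgn a
    obtain ⟨t, ht, e2, t3⟩ := sgn b
    obtain ⟨u, hu, e3, u3⟩ := sgn c
    refine Or.inl (mem_image.2 ⟨((s, t, u), a.natAbs, b.natAbs, c.natAbs), ?_, ?_⟩)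
    · simp only [B, Box, mem_product, mem_filter, mem_Icc]
      refine ⟨⟨hs, ht, hu⟩, ⟨b1, b2, b3⟩, s * x, t * y, u * z, fun h => h0 ?_, ?_⟩
      · simp only [mem_insert, mem_singleton] at hs ht hu
        refine ⟨?_, ?_, ?_⟩
        · rcases hs with rfl | rfl <;> omega
        · rcases ht with rfl | rfl <;> omega
        · rcases hu with rfl | rfl <;> omega
      · rw [mul_pow, mul_pow, mul_pow, s3, t3, u3]
        simp only [Int.cast_id] at e ⊢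
        linear_combination e - x ^ 3 * e1 - y ^ 3 * e2 - z ^ 3 * e3
    · simp only [f]
      rw [← e1, ← e2, ← e3]
  refine (Set.ncard_le_ncard h (finite_toSet _)).trans ?_
  rw [Set.ncard_coe_finset]
  refine (card_union_le _ _).trans (add_le_add (card_image_le.trans (le_of_eq ?_))
    ((card_union_le _ _).trans ((add_le_add_right (card_union_le _ _) _).trans (le_of_eq ?_))))
  · simp only [card_product]
    rfl
  · simp only [card_product, card_singleton, hI]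
    ring

theorem lower (H : ℕ) : #{t ∈ Box H | Loc t.1 t.2.1 t.2.2} ≤ (Tr Loc H).ncard := by
  let f : ℕ × ℕ × ℕ → ℤ × ℤ × ℤ := fun u => (u.1, u.2.1, u.2.2)
  have hf : Function.Injective f := fun u v h => by
    simp only [f, Prod.mk.injEq, Nat.cast_inj] at h
    exact Prod.ext h.1 (Prod.ext h.2.1 h.2.2)
  rw [← card_image_of_injective _ hf, ← Set.ncard_coe_finset]
  refine Set.ncard_le_ncard (fun t ht => ?_) (fin _ _)
  obtain ⟨u, hu, rfl⟩ := mem_image.1 ht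
  simp only [Box, mem_filter, mem_product, mem_Icc] at hu
  refine ⟨fun h => ?_, ?_, ?_, ?_, hu.2⟩
  · simp only [f, Prod.mk_eq_zero, Nat.cast_eq_zero] at h
    omega
  all_goals
    simp only [f, Nat.abs_cast, Nat.cast_le]
    omega

theorem ll {H : ℕ} (h : 16 ≤ H) : 1 ≤ Real.log H ∧ 1 ≤ Real.log (Real.log H) := by
  have h1 : Real.log 16 ≤ Real.log H := Real.log_le_log (by norm_num) (by exact_mod_cast h)
  rw [show (16 : ℝ) = 2 ^ 4 by norm_num, Real.log_pow] at h1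
  have h2 := Real.log_two_gt_d9
  have h3 := Real.exp_one_lt_d9
  push_cast at h1
  exact ⟨by linarith, (Real.le_log_iff_exp_le (by linarith)).2 (by linarith)⟩

theorem all {f g : ℕ → ℝ} (hg : ∀ H, 16 ≤ H → 0 < g H)
    (h : ∃ C : ℝ, ∀ᶠ H in atTop, f H ≤ C * g H) : ∃ C : ℝ, ∀ H, 16 ≤ H → f H ≤ C * g H := by
  obtain ⟨C, h⟩ := h
  obtain ⟨N, hN⟩ := eventually_atTop.1 h
  refine ⟨|C| + ∑ H ∈ range N, |f H / g H|, fun H hH => ?_⟩
  have g0 := hg H hH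
  have s0 : 0 ≤ ∑ H ∈ range N, |f H / g H| := sum_nonneg fun _ _ => abs_nonneg _
  rcases le_or_gt N H with h1 | h1
  · exact (hN H h1).trans (mul_le_mul_of_nonneg_right (by linarith [le_abs_self C]) g0.le)
  · have := single_le_sum (f := fun H => |f H / g H|) (fun _ _ => abs_nonneg _) (mem_range.2 h1)
    rw [← div_le_iff₀ g0]
    linarith [le_abs_self (f H / g H), abs_nonneg C]

end Last

open Last in
theorem finA (h : UpSt) : ∃ C : ℝ, ∀ H : ℕ, 16 ≤ H → ((Tr (SolIn ℤ) H).ncard : ℝ) ≤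
    C * ((H : ℝ) ^ 3 * Real.log (Real.log H) ^ 40 / Real.log H ^ 2) := by
  refine all (fun H hH => ?_) ?_
  · obtain ⟨h1, h2⟩ := ll hH
    have : (0 : ℝ) < H := by exact_mod_cast (by omega : 0 < H)
    positivity
  obtain ⟨C, h⟩ := h
  refine ⟨8 * C + 432, ?_⟩
  filter_upwards [h, eventually_ge_atTop 16] with H h1 hH
  obtain ⟨l1, l2⟩ := ll hH
  have H1 : (1 : ℝ) ≤ H := by exact_mod_cast (by omega : 1 ≤ H)
  have u : ((Tr (SolIn ℤ) H).ncard : ℝ) ≤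
      8 * #{t ∈ Box H | Sol t.1 t.2.1 t.2.2} + 3 * (2 * H + 1) ^ 2 := by exact_mod_cast upper H
  have l3 : Real.log H ^ 2 ≤ 16 * H := by
    have e := Real.log_le_sub_one_of_pos (Real.sqrt_pos.2 (by linarith : (0 : ℝ) < H))
    rw [Real.log_sqrt (by linarith)] at e
    have e2 := Real.sq_sqrt (by linarith : (0 : ℝ) ≤ H)
    nlinarith [Real.sqrt_nonneg (H : ℝ)]
  have l4 : (H : ℝ) ^ 2 ≤ 16 * ((H : ℝ) ^ 3 * Real.log (Real.log H) ^ 40 / Real.log H ^ 2) := by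
    rw [← mul_div_assoc, le_div_iff₀ (by positivity)]
    calc _ ≤ (H : ℝ) ^ 2 * (16 * H) * 1 := by rw [mul_one]; gcongr
      _ ≤ (H : ℝ) ^ 2 * (16 * H) * Real.log (Real.log H) ^ 40 := by
          gcongr
          exact one_le_pow₀ l2
      _ = _ := by ring
  rw [mul_assoc, mul_div_assoc] at h1
  have l5 : (2 * (H : ℝ) + 1) ^ 2 ≤ 9 * H ^ 2 := by nlinarith
  linarith

open Last in
theorem finB (h1 : UpSt) (h2 : LowSt) : ∃ C : ℝ, ∀ H : ℕ, 16 ≤ H →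
    ((Tr (SolIn ℤ) H).ncard : ℝ) ≤
      C * (Real.log (Real.log H) ^ 40 / √(Real.log H) * (Tr Loc H).ncard) := by
  have pos : ∀ H : ℕ, 16 ≤ H → 0 < (Tr Loc H).ncard := fun H hH => by
    refine (Set.ncard_pos (fin _ _)).2 ⟨(1, -1, 0), by simp, by simp; omega, by simp; omega,
      by simp, ⟨1, 1, 0, by simp, by simp⟩, fun p _ => ⟨1, 1, 0, by simp, by simp⟩⟩
  refine all (fun H hH => ?_) ?_
  · obtain ⟨l1, l2⟩ := ll hH
    have : (0 : ℝ) < (Tr Loc H).ncard := by exact_mod_cast pos H hH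
    have := Real.sqrt_pos.2 (by linarith : 0 < Real.log H)
    positivity
  obtain ⟨C, h1⟩ := finA h1
  obtain ⟨c, c0, h2⟩ := h2
  refine ⟨|C| / c, ?_⟩
  filter_upwards [h2, eventually_ge_atTop 16] with H h2 hH
  obtain ⟨l1, l2⟩ := ll hH
  have s0 := Real.sqrt_pos.2 (by linarith : 0 < Real.log H)
  have s2 := Real.sq_sqrt (by linarith : 0 ≤ Real.log H)
  have h3 : c * (H : ℝ) ^ 3 / √(Real.log H) ^ 3 ≤ (Tr Loc H).ncard :=
    h2.trans (by exact_mod_cast lower H)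
  calc _ ≤ |C| * ((H : ℝ) ^ 3 * Real.log (Real.log H) ^ 40 / Real.log H ^ 2) :=
        (h1 H hH).trans (mul_le_mul_of_nonneg_right (le_abs_self C) (by positivity))
    _ = |C| / c * (Real.log (Real.log H) ^ 40 / √(Real.log H) *
          (c * (H : ℝ) ^ 3 / √(Real.log H) ^ 3)) := by
        rw [show Real.log H ^ 2 = √(Real.log H) ^ 4 by rw [show 4 = 2 * 2 from rfl, pow_mul, s2]]
        field_simp
    _ ≤ _ := by gcongr

end Pool.Agent.Lib.MP_65b7ad_nt.DC
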