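import Pool.Agent.Lib.MP_65b7ad_nt.DC.Cnt2

/-!
Diagonal plane cubics: the sum over the contexts.
-/

open Finset

noncomputable section

namespace Pool.Agent.Lib.MP_65b7ad_nt.DC

open Classical

namespace Good

theorem gw_pos (w y n : ℕ) : 0 < gw w y n :=
  prod_pos fun l _ => by split_ifs <;> norm_num

theorem gw_mul {w y a b : ℕ} (ha : a ≠ 0) (hb : b ≠ 0)
    (h : ∀ l : ℕ, l.Prime → l ∣ a → l ∣ b → ¬ (w < l ∧ l ≤ y)) :
    gw w y (a * b) ≤ gw w y a * gw w y b := by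
  have e := prod_union_inter (s₁ := a.primeFactors) (s₂ := b.primeFactors)
    (f := fun l => if w < l ∧ l ≤ y then (1 / 3 : ℝ) else 3)
  have h1 : (1 : ℝ) ≤ ∏ l ∈ a.primeFactors ∩ b.primeFactors,
      if w < l ∧ l ≤ y then (1 / 3 : ℝ) else 3 := by
    refine le_trans (by simp) (prod_le_prod (f := fun _ => (1 : ℝ)) (fun _ _ => zero_le_one)
      fun l hl => ?_)
    rw [mem_inter] at hl
    rw [if_neg (h l (Nat.prime_of_mem_primeFactors hl.1) (Nat.dvd_of_mem_primeFactors hl.1)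
      (Nat.dvd_of_mem_primeFactors hl.2))]
    norm_num
  have h2 := gw_pos w y (a * b)
  unfold gw at h2 ⊢
  rw [Nat.primeFactors_mul ha hb] at h2 ⊢
  rw [← e]
  exact le_mul_of_one_le_right h2.le h1

/-- The set of small primes of a context. -/
def SS (w y n : ℕ) : Finset ℕ := {l ∈ n.primeFactors | w < l ∧ l ≤ y}

theorem wt_le (w y n : ℕ) :
    (3 : ℝ) ^ om1 n / 3 ^ #(SS w y n) / 3 ^ #{l ∈ SS w y n | l % 3 = 1} ≤ gw w y n := by
  have h1 : om1 n ≤ #{l ∈ SS w y n | l % 3 = 1} + #{l ∈ n.primeFactors | ¬ (w < l ∧ l ≤ y)} := by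
    refine le_trans (card_le_card ?_) (card_union_le _ _)
    intro l hl
    simp only [SS, mem_filter, mem_union] at hl ⊢
    tauto
  rw [gw, prod_ite, prod_const, prod_const, div_div, div_le_iff₀ (by positivity)]
  calc (3 : ℝ) ^ om1 n ≤ 3 ^ (#{l ∈ SS w y n | l % 3 = 1} +
        #{l ∈ n.primeFactors | ¬ (w < l ∧ l ≤ y)}) := pow_le_pow_right₀ (by norm_num) h1
    _ = _ := by
      rw [pow_add, SS, one_div, inv_pow]
      field_simp

theorem gw3 {w y a b c : ℕ} (ha : a ≠ 0) (hb : b ≠ 0) (hc : c ≠ 0) (h : Sq w (a * b * c)) :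
    gw w y (a * b * c) ≤ gw w y a * gw w y b * gw w y c := by
  refine (gw_mul (mul_ne_zero ha hb) hc fun l hl h1 h2 h3 => ?_).trans
    (mul_le_mul_of_nonneg_right (gw_mul ha hb fun l hl h1 h2 h3 => ?_) (gw_pos _ _ _).le)
  · exact h l hl h3.1 (by rw [sq]; exact mul_dvd_mul h1 h2)
  · exact h l hl h3.1 (by rw [sq]; exact (mul_dvd_mul h1 h2).mul_right c)

theorem ex {w y n : ℕ} (hw : 3 ≤ w) (h : Sq w n) : Ex (SS w y n) n := fun l hl => by
  rw [SS, mem_filter] at hl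
  have hp := Nat.prime_of_mem_primeFactors hl.1
  exact ⟨hp, by omega, Nat.dvd_of_mem_primeFactors hl.1, h l hp hl.2.1⟩

theorem card_SS {w y K a b c : ℕ} (ha : a ≠ 0) (hb : b ≠ 0) (hc : c ≠ 0)
    (h1 : #a.primeFactors ≤ K) (h2 : #b.primeFactors ≤ K) (h3 : #c.primeFactors ≤ K) :
    #(SS w y (a * b * c)) ≤ 3 * K := by
  refine (card_filter_le _ _).trans ?_
  rw [Nat.primeFactors_mul (mul_ne_zero ha hb) hc, Nat.primeFactors_mul ha hb]
  have := card_union_le (a.primeFactors ∪ b.primeFactors) c.primeFactors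
  have := card_union_le a.primeFactors b.primeFactors
  omega

theorem cheb {z X : ℕ} (hz : 2 ≤ z) :
    (#{r ∈ Ioc z X | r.Prime} : ℝ) ≤ 2 * X / Real.log z := by
  have h0 : 0 < Real.log z := Real.log_pos (by exact_mod_cast hz)
  have h1 := Chebyshev.theta_le_log4_mul_x (Nat.cast_nonneg X)
  have h2 : Real.log 4 ≤ 2 := by
    rw [show (4 : ℝ) = 2 ^ 2 by norm_num, Real.log_pow]
    have := Real.log_two_lt_d9
    push_cast
    linarith
  rw [le_div_iff₀ h0]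
  calc _ = ∑ _r ∈ {r ∈ Ioc z X | r.Prime}, Real.log z := by rw [sum_const, nsmul_eq_mul]
    _ ≤ ∑ r ∈ {r ∈ Ioc z X | r.Prime}, Real.log r := sum_le_sum fun r hr => by
        rw [mem_filter, mem_Ioc] at hr
        exact Real.log_le_log (by positivity) (by exact_mod_cast hr.1.1.le)
    _ ≤ Chebyshev.theta X := by
        rw [Chebyshev.theta, Nat.floor_natCast]
        refine sum_le_sum_of_subset_of_nonneg (fun r hr => ?_) fun r _ _ => Real.log_natCast_nonneg r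
        rw [mem_filter, mem_Ioc] at hr ⊢
        exact ⟨⟨hr.2.pos, hr.1.2⟩, hr.2⟩
    _ ≤ _ := h1.trans (mul_le_mul_of_nonneg_right h2 (Nat.cast_nonneg X))

theorem third {w y z K H : ℕ} (hz : 2 ≤ z) (hy : y ≤ z) :
    ∑ c ∈ Icc 1 H with Gd z K c, gw w y c ≤
      6 * H / Real.log z * ∑ n ∈ Icc 1 H, gw w y n / n := by
  have h0 : 0 < Real.log z := Real.log_pos (by exact_mod_cast hz)
  let T : Finset (Σ _ : ℕ, ℕ) := (Icc 1 H).sigma fun n => {r ∈ Ioc z (H / n) | r.Prime}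
  have h1 : {c ∈ Icc 1 H | Gd z K c} ⊆ T.image fun u => u.1 * u.2 := fun c hc => by
    obtain ⟨hc, -, r, hr, h2, n, rfl⟩ := mem_filter.1 hc
    rw [mem_Icc] at hc
    have hn : 0 < n := Nat.pos_of_mul_pos_left hc.1
    refine mem_image.2 ⟨⟨n, r⟩, ?_, mul_comm _ _⟩
    simp only [T, mem_sigma, mem_Icc, mem_filter, mem_Ioc]
    exact ⟨⟨hn, le_trans (Nat.le_mul_of_pos_left _ hr.pos) hc.2⟩,
      ⟨h2, (Nat.le_div_iff_mul_le hn).2 hc.2⟩, hr⟩
  calc _ ≤ ∑ c ∈ T.image fun u => u.1 * u.2, gw w y c :=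
        sum_le_sum_of_subset_of_nonneg h1 fun _ _ _ => (gw_pos _ _ _).le
    _ ≤ ∑ u ∈ T, gw w y (u.1 * u.2) := sum_image_le_of_nonneg fun _ _ => (gw_pos _ _ _).le
    _ ≤ ∑ u ∈ T, 3 * gw w y u.1 := sum_le_sum fun u hu => by
        simp only [T, mem_sigma, mem_Icc, mem_filter, mem_Ioc] at hu
        have e : gw w y u.2 = 3 := by
          rw [gw, hu.2.2.primeFactors, prod_singleton, if_neg (by omega)]
        rw [mul_comm 3, ← e]
        refine gw_mul (by omega) hu.2.2.ne_zero fun l hl _ h3 => ?_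
        rw [(Nat.prime_dvd_prime_iff_eq hl hu.2.2).1 h3]
        omega
    _ = ∑ n ∈ Icc 1 H, #{r ∈ Ioc z (H / n) | r.Prime} * (3 * gw w y n) := by
        rw [sum_sigma]
        exact sum_congr rfl fun n _ => by simp only [sum_const, nsmul_eq_mul]
    _ ≤ _ := by
        rw [mul_sum]
        refine sum_le_sum fun n _ => ?_
        have h3 := gw_pos w y n
        have h4 : ((H / n : ℕ) : ℝ) ≤ H / n := Nat.cast_div_le
        calc _ ≤ 2 * ((H : ℝ) / n) / Real.log z * (3 * gw w y n) :=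
              mul_le_mul_of_nonneg_right ((cheb hz).trans (by gcongr)) (by positivity)
          _ = _ := by ring

/-- The contexts. -/
def Cx (w z K H : ℕ) : Finset (ℕ × ℕ × ℕ) :=
  {u ∈ Box H | u.1 ≤ u.2.1 ∧ #u.1.primeFactors ≤ K ∧ #u.2.1.primeFactors ≤ K ∧ Gd z K u.2.2 ∧
    Sq w (u.1 * u.2.1 * u.2.2)}

/-- The soluble pairs of a context. -/
def Sp (z H : ℕ) (u : ℕ × ℕ × ℕ) : Finset (ℕ × ℕ) :=
  {r ∈ Prs (u.1 * u.2.1 * u.2.2) z (H / u.1) (H / u.2.1) | Sol (u.1 * r.1) (u.2.1 * r.2) u.2.2}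

theorem sol_swap {a b c : ℕ} (h : Sol a b c) : Sol b a c := by
  obtain ⟨x, y, z, h1, h2⟩ := h
  exact ⟨y, x, z, by tauto, by linear_combination h2⟩

theorem mem_Box {H : ℕ} {t : ℕ × ℕ × ℕ} : t ∈ Box H ↔
    (1 ≤ t.1 ∧ t.1 ≤ H) ∧ (1 ≤ t.2.1 ∧ t.2.1 ≤ H) ∧ 1 ≤ t.2.2 ∧ t.2.2 ≤ H := by
  simp only [Box, mem_product, mem_Icc]

theorem one {w z K H a b c p q : ℕ} (hw : w ≤ z) (hp : p.Prime) (hq : q.Prime) (zp : z < p)
    (zq : z < q) (hab : a ≤ b) (h : (a * p, b * q, c) ∈ Box H) (g : Good w z K (a * p, b * q, c))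
    (s : Sol (a * p) (b * q) c) : (a, b, c) ∈ Cx w z K H ∧ (p, q) ∈ Sp z H (a, b, c) := by
  rw [mem_Box] at h
  obtain ⟨g1, g2, g3, g4⟩ := g
  dsimp only at h g1 g2 g3 g4
  have ha : 0 < a := Nat.pos_of_mul_pos_right h.1.1
  have hb : 0 < b := Nat.pos_of_mul_pos_right h.2.1.1
  have e : a * p * (b * q) * c = a * b * c * (p * q) := by ring
  rw [e] at g4
  refine ⟨mem_filter.2 ⟨mem_Box.2 ⟨⟨ha, le_trans (Nat.le_mul_of_pos_right _ hp.pos) h.1.2⟩,
    ⟨hb, le_trans (Nat.le_mul_of_pos_right _ hq.pos) h.2.1.2⟩, h.2.2⟩, hab,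
    le_trans (card_le_card (Nat.primeFactors_mono (dvd_mul_right _ _) (Nat.one_le_iff_ne_zero.1 h.1.1)))
      g1.1,
    le_trans (card_le_card (Nat.primeFactors_mono (dvd_mul_right _ _)
      (Nat.one_le_iff_ne_zero.1 h.2.1.1))) g2.1, g3,
    fun l hl h1 h2 => g4 l hl h1 (h2.mul_right _)⟩, mem_filter.2 ⟨?_, s⟩⟩
  simp only [Prs, mem_filter, mem_product, mem_Ioc]
  refine ⟨⟨⟨zp, (Nat.le_div_iff_mul_le ha).2 (by rw [mul_comm]; exact h.1.2)⟩, zq,
    (Nat.le_div_iff_mul_le hb).2 (by rw [mul_comm]; exact h.2.1.2)⟩, hp, hq, ?_, fun d => ?_,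
    fun d => ?_⟩
  · rintro rfl
    exact g4 p hp (by omega) (by rw [sq]; exact dvd_mul_left _ _)
  · exact g4 p hp (by omega) (by rw [sq]; exact mul_dvd_mul d (dvd_mul_right _ _))
  · exact g4 q hq (by omega) (by rw [sq]; exact mul_dvd_mul d (dvd_mul_left _ _))

theorem cover {w z K H : ℕ} (hw : w ≤ z) :
    #{t ∈ Box H | Good w z K t ∧ Sol t.1 t.2.1 t.2.2} ≤ 2 * ∑ u ∈ Cx w z K H, #(Sp z H u) := by
  let T := (Cx w z K H).sigma fun u => Sp z H u
  have h1 : {t ∈ Box H | Good w z K t ∧ Sol t.1 t.2.1 t.2.2} ⊆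
      (T.image fun v => (v.1.1 * v.2.1, v.1.2.1 * v.2.2, v.1.2.2)) ∪
        T.image fun v => (v.1.2.1 * v.2.2, v.1.1 * v.2.1, v.1.2.2) := by
    rintro ⟨a, b, c⟩ ht
    obtain ⟨h2, g, s⟩ := mem_filter.1 ht
    obtain ⟨-, p, hp, zp, a, rfl⟩ := id g.1
    obtain ⟨-, q, hq, zq, b, rfl⟩ := id g.2.1
    rw [mul_comm p, mul_comm q] at h2 g s ⊢
    rcases le_total a b with hab | hab
    · exact mem_union_left _ (mem_image.2 ⟨⟨(a, b, c), (p, q)⟩,
        mem_sigma.2 (one hw hp hq zp zq hab h2 g s), rfl⟩)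
    · refine mem_union_right _ (mem_image.2 ⟨⟨(b, a, c), (q, p)⟩,
        mem_sigma.2 (one hw hq hp zq zp hab ?_ ⟨g.2.1, g.1, g.2.2.1, ?_⟩ (sol_swap s)), rfl⟩)
      · rw [mem_Box] at h2 ⊢
        exact ⟨h2.2.1, h2.1, h2.2.2⟩
      · have := g.2.2.2
        dsimp only at this ⊢
        rwa [mul_comm (b * q)]
  have h2 := (card_le_card h1).trans (card_union_le _ _)
  have h3 : #T = ∑ u ∈ Cx w z K H, #(Sp z H u) := card_sigma _ _
  have h4 := card_image_le (s := T) (f := fun v => (v.1.1 * v.2.1, v.1.2.1 * v.2.2, v.1.2.2))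
  have h5 := card_image_le (s := T) (f := fun v => (v.1.2.1 * v.2.2, v.1.1 * v.2.1, v.1.2.2))
  omega

theorem harm (H : ℕ) : ∑ n ∈ Icc 1 H, (1 : ℝ) / n ≤ 1 + Real.log H := by
  have := harmonic_le_one_add_log H
  rw [harmonic_eq_sum_Icc] at this
  push_cast at this
  simpa only [one_div] using this

theorem sum3 {w z K H : ℕ} (f g : ℕ → ℝ) (hf : ∀ n, 0 ≤ f n) (hg : ∀ n, 0 ≤ g n) :
    ∑ u ∈ Cx w z K H, f u.1 * f u.2.1 * g u.2.2 ≤
      (∑ n ∈ Icc 1 H, f n) ^ 2 * ∑ c ∈ Icc 1 H with Gd z K c, g c := by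
  have h : Cx w z K H ⊆ Icc 1 H ×ˢ Icc 1 H ×ˢ {c ∈ Icc 1 H | Gd z K c} := fun u hu => by
    obtain ⟨h1, -, -, -, h2, -⟩ := mem_filter.1 hu
    simp only [Box, mem_product, mem_filter] at h1 ⊢
    exact ⟨h1.1, h1.2.1, h1.2.2, h2⟩
  refine (sum_le_sum_of_subset_of_nonneg h fun u _ _ =>
    mul_nonneg (mul_nonneg (hf _) (hf _)) (hg _)).trans (le_of_eq ?_)
  rw [sum_product, sq, mul_assoc, sum_mul]
  refine sum_congr rfl fun a _ => ?_
  rw [sum_product, sum_mul_sum, mul_sum]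
  refine sum_congr rfl fun b _ => ?_
  rw [mul_sum]
  exact sum_congr rfl fun c _ => mul_assoc _ _ _

end Good

open Good in
theorem good (h1 : CtxSt2) (h2 : PairSt2) : GoodSt := by
  obtain ⟨A, C, hC, h1⟩ := h1
  refine ⟨3 * A, 12 * C, by positivity, fun w y z K h H hw hy hz hh => ?_⟩
  set σ := sv y z (3 * K) h ^ 2 with hσ
  have σ0 : 0 ≤ σ := sq_nonneg _
  set ε := (y : ℝ) ^ (3 * A * K) / (z : ℝ) ^ (1 / 72 : ℝ) with hε
  have ε0 : 0 ≤ ε := by positivity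
  have key : ∀ u ∈ Cx w z K H, (#(Sp z H u) : ℝ) ≤
      C * H ^ 2 * σ * (gw w y u.1 / u.1 * (gw w y u.2.1 / u.2.1) * gw w y u.2.2) +
        C * H ^ 2 * ε * (1 / u.1 * (1 / u.2.1) * 1) := by
    rintro ⟨a, b, c⟩ hu
    obtain ⟨m, hab, k1, k2, k3, s⟩ := mem_filter.1 hu
    rw [mem_Box] at m
    dsimp only at m hab k1 k2 k3 s ⊢
    have ha : a ≠ 0 := by omega
    have hb : b ≠ 0 := by omega
    have hc : c ≠ 0 := by omega
    have e1 := ex (y := y) hw s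
    have e2 := card_SS (w := w) (y := y) ha hb hc k1 k2 k3.1
    have e3 : ∀ l ∈ SS w y (a * b * c), l ≤ y := fun l hl => (mem_filter.1 hl).2.2
    have i1 := h1 a b c z (H / a) (H / b) _ m.1.1 m.2.1.1 m.2.2.1 (by omega)
      (Nat.div_le_div_left hab m.1.1) e1
    have i2 := h2 a b c y z (3 * K) h (H / a) (H / b) _ (by omega) hz hh e1 e3 e2
    have i3 := (wt_le w y (a * b * c)).trans (gw3 ha hb hc s)
    have i4 : ((H / a : ℕ) : ℝ) ≤ H / a := Nat.cast_div_le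
    have i5 : ((H / b : ℕ) : ℝ) ≤ H / b := Nat.cast_div_le
    have i6 : (∏ l ∈ SS w y (a * b * c), (l : ℝ)) ^ A ≤ (y : ℝ) ^ (3 * A * K) := by
      have y1 : (1 : ℝ) ≤ y := by exact_mod_cast (by omega : 1 ≤ y)
      rw [show 3 * A * K = 3 * K * A by ring, pow_mul]
      refine pow_le_pow_left₀ (prod_nonneg fun _ _ => Nat.cast_nonneg _) ?_ A
      refine le_trans (prod_le_prod (fun _ _ => Nat.cast_nonneg _)
        fun l hl => Nat.cast_le.2 (e3 l hl)) ?_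
      rw [prod_const]
      exact pow_le_pow_right₀ y1 e2
    have g1 := gw_pos w y a
    have g2 := gw_pos w y b
    have g3 := gw_pos w y c
    refine i1.trans (add_le_add ?_ ?_)
    · calc _ ≤ C * 3 ^ om1 (a * b * c) / 3 ^ #(SS w y (a * b * c)) * ((H : ℝ) / a * (H / b) * σ /
            3 ^ #{l ∈ SS w y (a * b * c) | l % 3 = 1}) :=
            mul_le_mul_of_nonneg_left (i2.trans (by gcongr)) (by positivity)
        _ = C * ((H : ℝ) / a * (H / b) * σ) * (3 ^ om1 (a * b * c) / 3 ^ #(SS w y (a * b * c)) /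
            3 ^ #{l ∈ SS w y (a * b * c) | l % 3 = 1}) := by ring
        _ ≤ C * ((H : ℝ) / a * (H / b) * σ) * (gw w y a * gw w y b * gw w y c) := by gcongr
        _ = _ := by ring
    · calc _ ≤ C * (y : ℝ) ^ (3 * A * K) * (H / a) * (H / b) / (z : ℝ) ^ (1 / 72 : ℝ) := by gcongr
        _ = _ := by rw [hε]; ring
  have s1 := sum3 (w := w) (z := z) (K := K) (H := H) (fun n => gw w y n / n) (gw w y)
    (fun n => div_nonneg (gw_pos _ _ _).le (Nat.cast_nonneg n)) fun n => (gw_pos _ _ _).le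
  have s2 := sum3 (w := w) (z := z) (K := K) (H := H) (fun n => 1 / n) (fun _ => 1)
    (fun n => by positivity) fun _ => zero_le_one
  have s3 := third (w := w) (K := K) (H := H) (show 2 ≤ z by omega) hz
  have s4 : ∑ _c ∈ Icc 1 H with Gd z K _c, (1 : ℝ) ≤ H := by
    rw [sum_const, nsmul_eq_mul, mul_one]
    exact_mod_cast (card_filter_le _ _).trans (by simp)
  have s5 := harm H
  have s6 : 0 ≤ ∑ n ∈ Icc 1 H, (1 : ℝ) / n := sum_nonneg fun _ _ => by positivity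
  set E := ∑ n ∈ Icc 1 H, gw w y n / n
  have L0 := Real.log_natCast_nonneg H
  calc _ ≤ 2 * ∑ u ∈ Cx w z K H, (#(Sp z H u) : ℝ) := by exact_mod_cast cover (hy.trans hz)
    _ ≤ 2 * (C * H ^ 2 * σ * (E ^ 2 * (6 * H / Real.log z * E)) +
          C * H ^ 2 * ε * ((1 + Real.log H) ^ 2 * H)) := by
        refine mul_le_mul_of_nonneg_left ((sum_le_sum key).trans ?_) zero_le_two
        rw [sum_add_distrib, ← mul_sum, ← mul_sum]
        exact add_le_add (mul_le_mul_of_nonneg_left (s1.trans (by gcongr)) (by positivity))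
          (mul_le_mul_of_nonneg_left (s2.trans (by gcongr)) (by positivity))
    _ ≤ _ := by
        have : 0 ≤ C * H ^ 3 * (ε * (1 + Real.log H) ^ 2) := by positivity
        have e : (y : ℝ) ^ (3 * A * K) * (1 + Real.log H) ^ 2 / (z : ℝ) ^ (1 / 72 : ℝ) =
          ε * (1 + Real.log H) ^ 2 := by rw [hε]; ring
        have e2 : 12 * C * H ^ 3 * (σ / Real.log z * E ^ 3 + ε * (1 + Real.log H) ^ 2) =
          2 * (C * H ^ 2 * σ * (E ^ 2 * (6 * H / Real.log z * E)) +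
            C * H ^ 2 * ε * ((1 + Real.log H) ^ 2 * H)) +
          10 * (C * H ^ 3 * (ε * (1 + Real.log H) ^ 2)) := by ring
        rw [e, e2]
        linarith

end Pool.Agent.Lib.MP_65b7ad_nt.DC
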