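import Pool.Agent.Lib.MP_65b7ad_nt.DC.Cnt

/-!
Local solubility of diagonal cubics on the subfamily.
-/

open Finset

noncomputable section

namespace Pool.Agent.Lib.MP_65b7ad_nt.DC

namespace LocAux

open Classical Polynomial

/-- Hensel lifting for `a X^3 + m`. -/
theorem lift (p : ℕ) [Fact p.Prime] (a m x : ℤ)
    (h : ‖((a * x ^ 3 + m : ℤ) : ℤ_[p])‖ < ‖((3 * a * x ^ 2 : ℤ) : ℤ_[p])‖ ^ 2) :
    ∃ X : ℚ_[p], (a : ℚ_[p]) * X ^ 3 + m = 0 := by
  let F : Polynomial ℤ_[p] := C (a : ℤ_[p]) * X ^ 3 + C (m : ℤ_[p])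
  have e1 : ∀ t : ℤ_[p], F.aeval t = a * t ^ 3 + m := by
    intro t
    simp [F]
  have e2 : ∀ t : ℤ_[p], F.derivative.aeval t = 3 * a * t ^ 2 := by
    intro t
    simp only [F, derivative_add, derivative_C, add_zero, derivative_C_mul, derivative_X_pow]
    simp
    ring
  have hn : ‖F.aeval (x : ℤ_[p])‖ < ‖F.derivative.aeval (x : ℤ_[p])‖ ^ 2 := by
    rw [e1, e2]
    push_cast at h
    exact h
  obtain ⟨z, hz, -⟩ := hensels_lemma hn
  refine ⟨(z : ℚ_[p]), ?_⟩
  rw [e1] at hz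
  have := congrArg (fun t : ℤ_[p] => (t : ℚ_[p])) hz
  simpa using this

theorem norm_one (p : ℕ) [Fact p.Prime] (k : ℤ) (h : ¬ (p : ℤ) ∣ k) : ‖(k : ℤ_[p])‖ = 1 := by
  have h1 := PadicInt.norm_le_one (k : ℤ_[p])
  have h2 : ¬ ‖(k : ℤ_[p])‖ < 1 := fun hh => h ((PadicInt.norm_int_lt_one_iff_dvd k).1 hh)
  linarith [not_lt.1 h2]

/-- Lifting away from three. -/
theorem lift' (p : ℕ) [hp : Fact p.Prime] (h3 : p ≠ 3) (a m x : ℤ)
    (h : (p : ℤ) ∣ a * x ^ 3 + m) (ha : ¬ (p : ℤ) ∣ a) (hx : ¬ (p : ℤ) ∣ x) :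
    ∃ X : ℚ_[p], (a : ℚ_[p]) * X ^ 3 + m = 0 := by
  have hP : Prime (p : ℤ) := Nat.prime_iff_prime_int.1 hp.out
  apply lift p a m x
  rw [norm_one p (3 * a * x ^ 2), one_pow]
  · exact (PadicInt.norm_int_lt_one_iff_dvd _).2 h
  · intro hd
    rcases hP.dvd_or_dvd hd with hd | hd
    · rcases hP.dvd_or_dvd hd with hd | hd
      · have : p ∣ 3 := by exact_mod_cast hd
        exact h3 ((Nat.prime_dvd_prime_iff_eq hp.out Nat.prime_three).1 this)
      · exact ha hd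
    · exact hx (hP.dvd_of_dvd_pow hd)

/-- Lifting a solution in `ZMod p` of `a x^3 + m = 0`. -/
theorem liftZ (p : ℕ) [hp : Fact p.Prime] (h3 : p ≠ 3) (a m : ℤ) (x : ZMod p)
    (h : (a : ZMod p) * x ^ 3 + m = 0) (ha : (a : ZMod p) ≠ 0) (hx : x ≠ 0) :
    ∃ X : ℚ_[p], (a : ℚ_[p]) * X ^ 3 + m = 0 := by
  obtain ⟨x, rfl⟩ := ZMod.intCast_surjective x
  apply lift' p h3 a m x
  · rw [← ZMod.intCast_zmod_eq_zero_iff_dvd]
    push_cast
    exact h
  · rw [← ZMod.intCast_zmod_eq_zero_iff_dvd]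
    exact ha
  · rw [← ZMod.intCast_zmod_eq_zero_iff_dvd]
    exact hx

/-- The ratio of two units that is a cube modulo `p`. -/
theorem two_of_cube (p : ℕ) [hp : Fact p.Prime] (h3 : p ≠ 3) (u v : ℤ)
    (hu : (u : ZMod p) ≠ 0) (hv : (v : ZMod p) ≠ 0) (x : ZMod p) (hx : x ^ 3 = (v : ZMod p) / u) :
    ∃ X : ℚ_[p], (u : ℚ_[p]) * X ^ 3 = v := by
  obtain ⟨X, hX⟩ := liftZ p h3 u (-v) x (by rw [hx]; push_cast; field_simp; ring) hu (by
    rintro rfl
    have : (v : ZMod p) / u = 0 := by rw [← hx]; simp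
    exact div_ne_zero hv hu this)
  refine ⟨X, ?_⟩
  push_cast at hX
  linear_combination hX

theorem cube_two (p : ℕ) [hp : Fact p.Prime] (h2 : p % 3 = 2) (w : ZMod p) (hw : w ≠ 0) :
    ∃ x : ZMod p, x ^ 3 = w := by
  refine ⟨w ^ (2 * (p / 3) + 1), ?_⟩
  have h1 : w ^ (p - 1) = 1 := ZMod.pow_card_sub_one_eq_one hw
  have e : (2 * (p / 3) + 1) * 3 = (p - 1) * 2 + 1 := by omega
  rw [← pow_mul, e, pow_succ, pow_mul, h1]
  simp

/-- Two squarefree coefficients with the same valuation, `p` congruent to two. -/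
theorem two (p : ℕ) [hp : Fact p.Prime] (h2 : p % 3 = 2) (a b : ℕ) (ha : Squarefree a)
    (hb : Squarefree b) (h : p ∣ a ↔ p ∣ b) :
    ∃ X : ℚ_[p], ((a : ℤ) : ℚ_[p]) * X ^ 3 = ((b : ℤ) : ℚ_[p]) := by
  have h3 : p ≠ 3 := by rintro rfl; omega
  have key : ∀ u v : ℕ, ¬ p ∣ u → ¬ p ∣ v →
      ∃ X : ℚ_[p], ((u : ℤ) : ℚ_[p]) * X ^ 3 = ((v : ℤ) : ℚ_[p]) := by
    intro u v hu hv
    have hu' : ((u : ℤ) : ZMod p) ≠ 0 := by
      rw [Int.cast_natCast, Ne, ZMod.natCast_eq_zero_iff]; exact hu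
    have hv' : ((v : ℤ) : ZMod p) ≠ 0 := by
      rw [Int.cast_natCast, Ne, ZMod.natCast_eq_zero_iff]; exact hv
    obtain ⟨x, hx⟩ := cube_two p h2 _ (div_ne_zero hv' hu')
    exact two_of_cube p h3 u v hu' hv' x hx
  have sq : ∀ u : ℕ, Squarefree (p * u) → ¬ p ∣ u := by
    intro u hu hd
    have : p * p ∣ p * u := Nat.mul_dvd_mul_left p hd
    exact hp.out.one_lt.ne' (Nat.isUnit_iff.1 (hu p this))
  by_cases hpa : p ∣ a
  · obtain ⟨u, rfl⟩ := hpa
    obtain ⟨v, rfl⟩ := h.1 (dvd_mul_right p u)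
    obtain ⟨X, hX⟩ := key u v (sq u ha) (sq v hb)
    refine ⟨X, ?_⟩
    push_cast at hX ⊢
    linear_combination (p : ℚ_[p]) * hX
  · exact key a b hpa (fun hh => hpa (h.2 hh))

section sol
variable {R : Type} [CommRing R] [Nontrivial R] {a b c : ℤ}

theorem sol12 (h : ∃ X : R, (a : R) * X ^ 3 = b) : SolIn R a b c := by
  obtain ⟨X, hX⟩ := h
  exact ⟨X, -1, 0, by simp, by linear_combination hX⟩

theorem sol13 (h : ∃ X : R, (a : R) * X ^ 3 = c) : SolIn R a b c := by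
  obtain ⟨X, hX⟩ := h
  exact ⟨X, 0, -1, by simp, by linear_combination hX⟩

theorem sol23 (h : ∃ X : R, (b : R) * X ^ 3 = c) : SolIn R a b c := by
  obtain ⟨X, hX⟩ := h
  exact ⟨0, X, -1, by simp, by linear_combination hX⟩

end sol

/-- An element with trivial symbol is a cube. -/
theorem cube_one (p : ℕ) [hp : Fact p.Prime] (h1 : p % 3 = 1) (w : ZMod p) (hw : w ≠ 0)
    (h : w ^ (p / 3) = 1) : ∃ x : ZMod p, x ^ 3 = w := by
  obtain ⟨g, hg⟩ := IsCyclic.exists_generator (α := (ZMod p)ˣ)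
  have ho : orderOf g = p - 1 := by
    rw [orderOf_eq_card_of_forall_mem_zpowers hg, Nat.card_eq_fintype_card, ZMod.card_units]
  obtain ⟨k, hk⟩ : Units.mk0 w hw ∈ Submonoid.powers g := mem_powers_iff_mem_zpowers.2 (hg _)
  have hk' : g ^ k = Units.mk0 w hw := hk
  have h2 : g ^ (k * (p / 3)) = 1 := by
    rw [pow_mul, hk']
    ext
    simpa using h
  have h3 : p - 1 ∣ k * (p / 3) := ho ▸ orderOf_dvd_of_pow_eq_one h2
  have h4 : p - 1 = 3 * (p / 3) := by omega
  have h5 : 0 < p / 3 := by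
    have := hp.out.two_le
    omega
  rw [h4] at h3
  obtain ⟨j, rfl⟩ := Nat.dvd_of_mul_dvd_mul_right h5 h3
  refine ⟨((g ^ j : (ZMod p)ˣ) : ZMod p), ?_⟩
  have := congrArg (fun t : (ZMod p)ˣ => (t : ZMod p)) hk'
  simp only [Units.val_pow_eq_pow_val, Units.val_mk0] at this ⊢
  rw [← this]
  ring

/-- The cyclotomic number of the two nontrivial classes is positive. -/
theorem cyc (p : ℕ) [hp : Fact p.Prime] (h1 : p % 3 = 1) (s : ZMod p) (hs : s ≠ 0)
    (hs1 : s ^ (p / 3) ≠ 1) :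
    ∃ t : ZMod p, t ^ (p / 3) = s ^ (p / 3) ∧ (1 + t) ^ (p / 3) = (s ^ (p / 3)) ^ 2 ∧
      t ≠ 0 ∧ 1 + t ≠ 0 := by
  set f := p / 3 with hf
  have hp2 := hp.out.two_le
  have hf0 : f ≠ 0 := by omega
  have hodd : p % 2 = 1 := by
    rcases hp.out.eq_two_or_odd with h | h
    · omega
    · exact h
  have hev : Even f := by
    rw [Nat.even_iff]
    omega
  have hneg : ∀ x : ZMod p, (-x) ^ f = x ^ f := fun x => hev.neg_pow x
  have hcube : ∀ x : ZMod p, x ≠ 0 → (x ^ f) ^ 3 = 1 := by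
    intro x hx
    rw [← pow_mul, show f * 3 = p - 1 by omega]
    exact ZMod.pow_card_sub_one_eq_one hx
  set om := s ^ f with hom
  have ho3 : om ^ 3 = 1 := hcube s hs
  have ho0 : om ≠ 0 := pow_ne_zero _ hs
  have hq : om ^ 2 + om + 1 = 0 := by
    have : (om - 1) * (om ^ 2 + om + 1) = 0 := by linear_combination ho3
    exact (mul_eq_zero.1 this).resolve_left (sub_ne_zero.2 hs1)
  have tri : ∀ y : ZMod p, y ^ 3 = 1 → y = 1 ∨ y = om ∨ y = om ^ 2 := by
    intro y hy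
    have : (y - 1) * ((y - om) * (y - om ^ 2)) = 0 := by
      linear_combination hy + (y - y ^ 2) * hq + (y - 1) * ho3
    rcases mul_eq_zero.1 this with h | h
    · exact Or.inl (sub_eq_zero.1 h)
    · rcases mul_eq_zero.1 h with h | h
      · exact Or.inr (Or.inl (sub_eq_zero.1 h))
      · exact Or.inr (Or.inr (sub_eq_zero.1 h))
  by_contra hcon
  push Not at hcon
  have ht0 : ∀ t : ZMod p, t ^ f = om → t ≠ 0 := by
    rintro t ht rfl
    exact ho0 (by rw [← ht, zero_pow hf0])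
  have ht1 : ∀ t : ZMod p, t ^ f = om → 1 + t ≠ 0 := by
    intro t ht h
    have : t = -1 := by linear_combination h
    rw [this, hneg, one_pow] at ht
    exact hs1 ht.symm
  have alt : ∀ t : ZMod p, t ^ f = om → (1 + t) ^ f ≠ 1 → (1 + t) ^ f = om := by
    intro t ht h
    rcases tri _ (hcube _ (ht1 t ht)) with h' | h' | h'
    · exact absurd h' h
    · exact h'
    · exact absurd (hcon t ht h' (ht0 t ht)) (ht1 t ht)
  let C0 : Finset (ZMod p) := univ.filter fun t => t ^ f = 1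
  let C1 : Finset (ZMod p) := univ.filter fun t => t ^ f = om
  have c01 : #C0 ≤ #C1 := by
    apply card_le_card_of_injOn (fun t => s * t)
    · intro t ht
      simp only [C0, C1, coe_filter, mem_univ, true_and, Set.mem_ofPred_eq] at ht ⊢
      rw [mul_pow, ht, mul_one]
    · intro t _ t' _ h
      exact mul_left_cancel₀ hs h
  have c10 : #C1 ≤ #(C0.erase (-1)) := by
    apply card_le_card_of_injOn (fun t => if (1 + t) ^ f = 1 then -(1 + t) else -((1 + t) / t))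
    · intro t ht
      simp only [C1, coe_filter, mem_univ, true_and, Set.mem_ofPred_eq] at ht
      have h0 := ht0 t ht
      simp only [C0, coe_erase, coe_filter, mem_univ, true_and, Set.mem_sdiff, Set.mem_ofPred_eq,
        Set.mem_singleton_iff]
      split_ifs with h
      · refine ⟨by rw [hneg, h], fun hh => h0 ?_⟩
        linear_combination -hh
      · refine ⟨by rw [hneg, div_pow, alt t ht h, ht, div_self ho0], fun hh => ?_⟩
        have h2 : (1 + t) / t = 1 := neg_injective hh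
        rw [div_eq_one_iff_eq h0] at h2
        exact one_ne_zero (α := ZMod p) (by linear_combination h2)
    · have mix : ∀ t t' : ZMod p, t ^ f = om → t' ^ f = om → 1 + t = (1 + t') / t' → False := by
        intro t t' ht ht' h
        have h0 := ht0 t' ht'
        have h2 : t * t' = 1 := by
          rw [eq_div_iff h0] at h
          linear_combination h
        have h3 : om * om = 1 := by
          have h4 : (t * t') ^ f = 1 := by rw [h2, one_pow]
          rwa [mul_pow, ht, ht'] at h4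
        exact hs1 (by linear_combination ho3 - om * h3)
      intro t ht t' ht' h
      simp only [C1, coe_filter, mem_univ, true_and, Set.mem_ofPred_eq] at ht ht'
      simp only at h
      split_ifs at h with h2 h3 h3
      · linear_combination -h
      · exact (mix t t' ht ht' (neg_injective h)).elim
      · exact (mix t' t ht' ht (neg_injective h).symm).elim
      · have h4 := neg_injective h
        rw [div_eq_div_iff (ht0 t ht) (ht0 t' ht')] at h4
        linear_combination -h4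
  have hm : (-1 : ZMod p) ∈ C0 := by simp [C0, hneg]
  have := card_erase_lt_of_mem hm
  omega

theorem one (p : ℕ) [hp : Fact p.Prime] (h1 : p % 3 = 1) (a b c : ℤ) (ha : (a : ZMod p) ≠ 0)
    (hb : (b : ZMod p) ≠ 0) (hc : (c : ZMod p) ≠ 0) : SolIn ℚ_[p] a b c := by
  have h3 : p ≠ 3 := by rintro rfl; omega
  have key : ∀ u v : ℤ, (u : ZMod p) ≠ 0 → (v : ZMod p) ≠ 0 →
      ((v : ZMod p) / u) ^ (p / 3) = 1 → ∃ X : ℚ_[p], (u : ℚ_[p]) * X ^ 3 = v := by
    intro u v hu hv h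
    obtain ⟨x, hx⟩ := cube_one p h1 _ (div_ne_zero hv hu) h
    exact two_of_cube p h3 u v hu hv x hx
  by_cases h12 : ((b : ZMod p) / a) ^ (p / 3) = 1
  · exact sol12 (key a b ha hb h12)
  by_cases h13 : ((c : ZMod p) / a) ^ (p / 3) = 1
  · exact sol13 (key a c ha hc h13)
  by_cases h23 : ((c : ZMod p) / b) ^ (p / 3) = 1
  · exact sol23 (key b c hb hc h23)
  obtain ⟨t, e1, e2, t0, t1⟩ := cyc p h1 _ (div_ne_zero hb ha) h12
  have hcube : ∀ x : ZMod p, x ≠ 0 → (x ^ (p / 3)) ^ 3 = 1 := by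
    intro x hx
    rw [← pow_mul, show p / 3 * 3 = p - 1 by omega]
    exact ZMod.pow_card_sub_one_eq_one hx
  have hba := div_ne_zero hb ha
  have hca := div_ne_zero hc ha
  have e3 : ((c : ZMod p) / a) ^ (p / 3) = (((b : ZMod p) / a) ^ (p / 3)) ^ 2 := by
    have q1 := hcube _ hba
    have q2 := hcube _ hca
    have q3 : ((c : ZMod p) / a) ^ (p / 3) ≠ ((b : ZMod p) / a) ^ (p / 3) := by
      intro hh
      apply h23
      have : (c : ZMod p) / b = ((c : ZMod p) / a) / ((b : ZMod p) / a) := by field_simp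
      rw [this, div_pow, hh, div_self (pow_ne_zero _ hba)]
    generalize ((c : ZMod p) / a) ^ (p / 3) = y at *
    generalize ((b : ZMod p) / a) ^ (p / 3) = om at *
    have hq : om ^ 2 + om + 1 = 0 := by
      have : (om - 1) * (om ^ 2 + om + 1) = 0 := by linear_combination q1
      exact (mul_eq_zero.1 this).resolve_left (sub_ne_zero.2 h12)
    have : (y - 1) * ((y - om) * (y - om ^ 2)) = 0 := by
      linear_combination q2 + (y - y ^ 2) * hq + (y - 1) * q1
    rcases mul_eq_zero.1 this with h | h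
    · exact absurd (sub_eq_zero.1 h) h13
    · rcases mul_eq_zero.1 h with h | h
      · exact absurd (sub_eq_zero.1 h) q3
      · exact sub_eq_zero.1 h
  obtain ⟨y, hy⟩ := cube_one p h1 (t / ((b : ZMod p) / a)) (div_ne_zero t0 hba) (by
    rw [div_pow, e1, div_self (pow_ne_zero _ hba)])
  obtain ⟨z, hz⟩ := cube_one p h1 ((1 + t) / ((c : ZMod p) / a)) (div_ne_zero t1 hca) (by
    rw [div_pow, e2, ← e3, div_self (pow_ne_zero _ hca)])
  obtain ⟨y, rfl⟩ := ZMod.intCast_surjective y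
  obtain ⟨z, rfl⟩ := ZMod.intCast_surjective z
  have y0 : y ≠ 0 := by
    rintro rfl
    exact div_ne_zero t0 hba (by rw [← hy]; simp)
  obtain ⟨X, hX⟩ := liftZ p h3 a (b * y ^ 3 - c * z ^ 3) 1 (by
    push_cast
    rw [hy, hz]
    field_simp
    ring) ha one_ne_zero
  refine ⟨X, y, -z, fun hh => y0 (by exact_mod_cast hh.2.1), ?_⟩
  push_cast at hX
  linear_combination hX

theorem three (a b : ℕ) (ha : ¬ 3 ∣ a) (h : a % 27 = b % 27) :
    ∃ X : ℚ_[3], ((a : ℤ) : ℚ_[3]) * X ^ 3 = ((b : ℤ) : ℚ_[3]) := by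
  obtain ⟨X, hX⟩ := lift 3 a (-(b : ℤ)) 1 (by
    have h1 : ‖(((a : ℤ) * 1 ^ 3 + -(b : ℤ) : ℤ) : ℤ_[3])‖ ≤ ((3 : ℕ) : ℝ) ^ (-(3 : ℕ) : ℤ) := by
      rw [PadicInt.norm_int_le_pow_iff_dvd]
      omega
    have h2 : ‖((3 * (a : ℤ) * 1 ^ 2 : ℤ) : ℤ_[3])‖ = 3⁻¹ := by
      have h3 := norm_one 3 (a : ℤ) (by omega)
      have h4 : ‖((3 : ℕ) : ℤ_[3])‖ = ((3 : ℕ) : ℝ)⁻¹ := PadicInt.norm_p
      have : ((3 * (a : ℤ) * 1 ^ 2 : ℤ) : ℤ_[3]) = ((3 : ℕ) : ℤ_[3]) * ((a : ℤ) : ℤ_[3]) := by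
        push_cast; ring
      rw [this, norm_mul, h3, h4]
      norm_num
    rw [h2]
    refine lt_of_le_of_lt h1 ?_
    norm_num)
  refine ⟨X, ?_⟩
  push_cast at hX ⊢
  linear_combination hX

end LocAux

open LocAux in
theorem loc : LocSt := by
  intro a b c ha hb hc hab
  refine ⟨sol12 ?_, fun p hp => ?_⟩
  · have a0 : (0 : ℝ) < a := by exact_mod_cast Nat.pos_of_ne_zero ha.1.ne_zero
    refine ⟨((b : ℝ) / a) ^ ((3 : ℕ) : ℝ)⁻¹, ?_⟩
    rw [Real.rpow_inv_natCast_pow (by positivity) (by norm_num)]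
    push_cast
    field_simp
  · have nd : ∀ n : ℕ, NN n → p % 3 ≠ 2 → ((n : ℤ) : ZMod p) ≠ 0 := by
      intro n hn h
      rw [Int.cast_natCast, Ne, ZMod.natCast_eq_zero_iff]
      exact fun hd => h (hn.2 p hp.out hd)
    by_cases h2 : p % 3 = 2
    · by_cases q1 : p ∣ a ↔ p ∣ b
      · exact sol12 (two p h2 a b ha.1 hb.1 q1)
      by_cases q2 : p ∣ a ↔ p ∣ c
      · exact sol13 (two p h2 a c ha.1 hc.1 q2)
      exact sol23 (two p h2 b c hb.1 hc.1 (by tauto))
    by_cases h1 : p % 3 = 1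
    · exact one p h1 a b c (nd a ha h2) (nd b hb h2) (nd c hc h2)
    have h3 : p = 3 := by
      have : 3 ∣ p := by omega
      exact ((Nat.prime_dvd_prime_iff_eq Nat.prime_three hp.out).1 this).symm
    subst h3
    refine sol12 (three a b (fun hd => ?_) hab)
    have := ha.2 3 Nat.prime_three hd
    omega

end Pool.Agent.Lib.MP_65b7ad_nt.DC
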