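import Pool.Agent.Lib.MP_65b7ad_nt.DC.Cnt
import Pool.Agent.Lib.MP_0820eb_co.Dens.CharSum
import Pool.Agent.Lib.MP_a3b3a7_nt.M.Mert
import Pool.Agent.Shared.PNTAP

/-!
The number of squarefree integers all of whose prime factors are two modulo three, and the lower
bound for the locally soluble triples.
-/

open Finset Filter

noncomputable section

namespace Pool.Agent.Lib.MP_65b7ad_nt.DC

open Classical

namespace NNa

/-- The nontrivial character modulo three with integer values. -/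
def chiZ : MulChar (ZMod 3) ℤ where
  toFun a := if a = 0 then 0 else if a = 1 then 1 else -1
  map_one' := by decide
  map_mul' := by decide
  map_nonunit' := by decide

/-- The nontrivial character modulo three. -/
def chi : DirichletCharacter ℂ 3 := chiZ.ringHomComp (Int.castRingHom ℂ)

/-- Its real values. -/
def xv (n : ℕ) : ℝ := if n % 3 = 0 then 0 else if n % 3 = 1 then 1 else -1

lemma chi_val (n : ℕ) : chi n = xv n := by
  have h : (n : ZMod 3) = ((n % 3 : ℕ) : ZMod 3) := (ZMod.natCast_mod n 3).symm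
  have h3 : n % 3 = 0 ∨ n % 3 = 1 ∨ n % 3 = 2 := by omega
  have e0 : chiZ ((0 : ℕ) : ZMod 3) = 0 := by decide
  have e1 : chiZ ((1 : ℕ) : ZMod 3) = 1 := by decide
  have e2 : chiZ ((2 : ℕ) : ZMod 3) = -1 := by decide
  rw [chi, MulChar.ringHomComp_apply, h, xv]
  rcases h3 with h3 | h3 | h3 <;> rw [h3]
  · rw [e0]; simp
  · rw [e1]; simp
  · rw [e2]; simp

lemma chi_ne : chi ≠ 1 := by
  intro h
  have h1 := chi_val 2
  have hu : IsUnit ((2 : ℕ) : ZMod 3) := by decide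
  rw [h, MulChar.one_apply hu, xv] at h1
  norm_num at h1

/-- The primes that are not two modulo three. -/
def P1 (z : ℕ) : Finset ℕ := {p ∈ PL z | p % 3 ≠ 2}

lemma sum_P1 : ∃ C : ℝ, ∀ z : ℕ, 2 ≤ z →
    ∑ p ∈ P1 z, (1 : ℝ) / p ≤ Real.log (Real.log z) / 2 + C := by
  obtain ⟨C1, h1⟩ := MP_0820eb_co.Dens.charsum_fixed chi chi_ne xv chi_val
  obtain ⟨C2, -, h2⟩ := MP_a3b3a7_nt.Mert.S_bound
  refine ⟨C1 / 2 + C2 / 2 + 1, fun z hz => ?_⟩
  have e1 : MP_a3b3a7_nt.Mert.S z = ∑ p ∈ PL z, (1 : ℝ) / p := by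
    rw [MP_a3b3a7_nt.Mert.S, ← sum_filter]
    refine sum_congr ?_ fun _ _ => rfl
    ext p
    simp only [PL, mem_filter, mem_Ioc, mem_range]
    exact ⟨fun h => ⟨by omega, h.2⟩, fun h => ⟨⟨h.2.pos, by omega⟩, h.2⟩⟩
  have e2 : MP_0820eb_co.Dens.PS xv z = ∑ p ∈ PL z, xv p / p := rfl
  have a1 := (abs_le.1 (h1 z)).2
  have a2 := (abs_le.1 (h2 z hz)).2
  rw [e1] at a2
  rw [e2] at a1
  have key : ∑ p ∈ P1 z, (1 : ℝ) / p ≤
      ∑ p ∈ PL z, ((1 / p) / 2 + (xv p / p) / 2 + if p = 3 then 1 else 0) := by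
    rw [P1, sum_filter]
    refine sum_le_sum fun p hp => ?_
    have hpp : p.Prime := (mem_filter.1 hp).2
    have hp0 : (0 : ℝ) < p := by exact_mod_cast hpp.pos
    have hi : (0 : ℝ) < 1 / p := by positivity
    have h3 : p % 3 = 0 ∨ p % 3 = 1 ∨ p % 3 = 2 := by omega
    rcases h3 with h3 | h3 | h3
    · have : p = 3 := ((Nat.prime_dvd_prime_iff_eq Nat.prime_three hpp).1
        (Nat.dvd_of_mod_eq_zero h3)).symm
      subst this
      norm_num [xv]
    · have hne : p ≠ 3 := by rintro rfl; omega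
      rw [if_pos (by omega), if_neg hne, xv, if_neg (by omega), if_pos h3]
      linarith
    · have hne : p ≠ 3 := by rintro rfl; omega
      rw [if_neg (by omega), if_neg hne, xv, if_neg (by omega), if_neg (by omega), neg_div]
      linarith
  rw [sum_add_distrib, sum_add_distrib, ← sum_div, ← sum_div, sum_ite_eq'] at key
  have : (if 3 ∈ PL z then (1 : ℝ) else 0) ≤ 1 := by split_ifs <;> norm_num
  linarith

/-- The family up to `x`. -/
def NS (x : ℕ) : Finset ℕ := {n ∈ Icc 1 x | NN n}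

lemma split {x n : ℕ} (hn : n ∈ Icc 1 x) : ∃ m ∈ NS x, ∃ T ∈ (P1 x).powerset, ∃ b ∈ Icc 1 x,
    m * (∏ p ∈ T, p) * b ^ 2 = n := by
  obtain ⟨h1, h2⟩ := mem_Icc.1 hn
  obtain ⟨a, b, ha, hb, hab, hs⟩ := Nat.sq_mul_squarefree_of_pos h1
  have han : a ∣ n := ⟨b ^ 2, by rw [← hab]; ring⟩
  have hbn : b ∣ n := ⟨b * a, by rw [← hab]; ring⟩
  have hp : (∏ p ∈ a.primeFactors with p % 3 = 2, p) * ∏ p ∈ a.primeFactors with ¬ p % 3 = 2, p = a := by
    rw [prod_filter_mul_prod_filter_not, Nat.prod_primeFactors_of_squarefree hs]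
  have hm : (∏ p ∈ a.primeFactors with p % 3 = 2, p) ∣ a := ⟨_, hp.symm⟩
  refine ⟨∏ p ∈ a.primeFactors with p % 3 = 2, p, ?_, {p ∈ a.primeFactors | ¬ p % 3 = 2}, ?_, b, ?_, ?_⟩
  · refine mem_filter.2 ⟨mem_Icc.2 ⟨Nat.pos_of_dvd_of_pos hm ha,
      (Nat.le_of_dvd h1 (hm.trans han)).trans h2⟩, hs.squarefree_of_dvd hm, fun q hq hd => ?_⟩
    obtain ⟨p, hp1, hp2⟩ := (Prime.dvd_finsetProd_iff hq.prime _).1 hd
    obtain ⟨hp3, hp4⟩ := mem_filter.1 hp1
    rwa [(Nat.prime_dvd_prime_iff_eq hq (Nat.prime_of_mem_primeFactors hp3)).1 hp2]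
  · refine mem_powerset.2 fun p hp1 => ?_
    obtain ⟨hp3, hp4⟩ := mem_filter.1 hp1
    have := Nat.le_of_dvd h1 ((Nat.dvd_of_mem_primeFactors hp3).trans han)
    exact mem_filter.2 ⟨mem_filter.2 ⟨mem_range.2 (by omega), Nat.prime_of_mem_primeFactors hp3⟩, hp4⟩
  · exact mem_Icc.2 ⟨hb, (Nat.le_of_dvd h1 hbn).trans h2⟩
  · rw [hp, ← hab]; ring

lemma harm (x : ℕ) : Real.log x ≤
    (∑ m ∈ NS x, (1 : ℝ) / m) * Real.exp (∑ p ∈ P1 x, (1 : ℝ) / p) * 2 := by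
  have h0 : Real.log x ≤ ∑ n ∈ Icc 1 x, ((n : ℝ))⁻¹ := by
    have h := log_add_one_le_harmonic x
    simp only [harmonic_eq_sum_Icc, Rat.cast_sum, Rat.cast_inv, Rat.cast_natCast] at h
    refine le_trans ?_ h
    rcases Nat.eq_zero_or_pos x with rfl | hx
    · simp
    · exact Real.log_le_log (by exact_mod_cast hx) (by push_cast; linarith)
  set g : ℕ × Finset ℕ × ℕ → ℕ := fun t => t.1 * (∏ p ∈ t.2.1, p) * t.2.2 ^ 2 with hg
  have h1 : ∑ n ∈ Icc 1 x, ((n : ℝ))⁻¹ ≤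
      ∑ t ∈ NS x ×ˢ (P1 x).powerset ×ˢ Icc 1 x, ((g t : ℝ))⁻¹ := by
    refine le_trans (sum_le_sum_of_subset_of_nonneg (t := (NS x ×ˢ (P1 x).powerset ×ˢ Icc 1 x).image g)
      (fun n hn => ?_) fun _ _ _ => by positivity)
      (sum_image_le_of_nonneg (f := fun n : ℕ => ((n : ℝ))⁻¹) fun _ _ => by positivity)
    obtain ⟨m, hm, T, hT, b, hb, he⟩ := split hn
    exact mem_image.2 ⟨(m, T, b), mem_product.2 ⟨hm, mem_product.2 ⟨hT, hb⟩⟩, he⟩
  have h2 : ∑ t ∈ NS x ×ˢ (P1 x).powerset ×ˢ Icc 1 x, ((g t : ℝ))⁻¹ =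
      (∑ m ∈ NS x, (1 : ℝ) / m) * ((∏ p ∈ P1 x, (1 + (1 : ℝ) / p)) * ∑ b ∈ Icc 1 x, ((b : ℝ)⁻¹) ^ 2) := by
    rw [prod_one_add, sum_mul_sum, sum_product, sum_mul]
    refine sum_congr rfl fun m _ => ?_
    rw [sum_product, mul_sum]
    refine sum_congr rfl fun T _ => ?_
    rw [mul_sum]
    refine sum_congr rfl fun b _ => ?_
    simp only [hg, one_div, prod_inv_distrib]
    push_cast
    rw [mul_inv, mul_inv, inv_pow, mul_assoc]
  have h3 := Real.prod_one_add_le_exp_sum (P1 x) (f := fun p : ℕ => (1 : ℝ) / p) fun _ => by positivity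
  have h4 := MP_0820eb_co.Dens.charsum_sq_sum (Icc 1 x)
  rw [mul_assoc]
  refine h0.trans (h1.trans (h2.le.trans ?_))
  refine mul_le_mul_of_nonneg_left (mul_le_mul h3 h4 (by positivity) (by positivity)) (by positivity)

lemma mlow : ∃ c : ℝ, 0 < c ∧ ∀ x : ℕ, 2 ≤ x → c * √(Real.log x) ≤ ∑ m ∈ NS x, (1 : ℝ) / m := by
  obtain ⟨C, hC⟩ := sum_P1
  refine ⟨1 / (2 * Real.exp C), by positivity, fun x hx => ?_⟩
  have hl : 0 < Real.log x := Real.log_pos (by exact_mod_cast hx)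
  have hs : 0 < √(Real.log x) := Real.sqrt_pos.2 hl
  have h1 : Real.exp (∑ p ∈ P1 x, (1 : ℝ) / p) ≤ √(Real.log x) * Real.exp C := by
    refine (Real.exp_le_exp.2 (hC x hx)).trans (le_of_eq ?_)
    rw [Real.exp_add, Real.exp_half, Real.exp_log hl]
  have h2 := harm x
  have h3 : 0 ≤ ∑ m ∈ NS x, (1 : ℝ) / m := by positivity
  have h4 : √(Real.log x) * √(Real.log x) ≤
      √(Real.log x) * ((∑ m ∈ NS x, (1 : ℝ) / m) * (2 * Real.exp C)) := by
    rw [Real.mul_self_sqrt hl.le]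
    refine h2.trans ?_
    nlinarith [mul_le_mul_of_nonneg_left h1 h3]
  have h5 := le_of_mul_le_mul_left h4 hs
  rw [one_div_mul_eq_div, div_le_iff₀ (by positivity)]
  exact h5

lemma log_dvd {n : ℕ} (hn : 0 < n) (Q : Finset ℕ) (hQ : ∀ p ∈ Q, p.Prime) :
    ∑ p ∈ Q with p ∣ n, Real.log p ≤ Real.log n := by
  have h1 : ∑ p ∈ Q with p ∣ n, Real.log p ≤ ∑ p ∈ n.primeFactors, Real.log p :=
    sum_le_sum_of_subset_of_nonneg (fun p hp => Nat.mem_primeFactors.2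
      ⟨hQ p (mem_filter.1 hp).1, (mem_filter.1 hp).2, hn.ne'⟩) fun p _ _ => Real.log_natCast_nonneg p
  have h2 : ∀ p ∈ n.primeFactors, (p : ℝ) ≠ 0 := fun p hp => by
    exact_mod_cast (Nat.prime_of_mem_primeFactors hp).ne_zero
  refine h1.trans ?_
  rw [← Real.log_prod h2, ← Nat.cast_prod]
  refine Real.log_le_log ?_ (by exact_mod_cast Nat.le_of_dvd hn (Nat.prod_primeFactors_dvd n))
  exact_mod_cast prod_pos fun p hp => (Nat.prime_of_mem_primeFactors hp).pos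

/-- The primes that are two modulo three. -/
def P2 (z : ℕ) : Finset ℕ := {p ∈ Icc 1 z | p.Prime ∧ p % 3 = 2}

lemma logsum (H y : ℕ) :
    ∑ m ∈ NS y, (∑ p ∈ P2 (H / m), Real.log p - Real.log m) ≤ #(NS H) * Real.log H := by
  have hQ : ∀ z, ∀ p ∈ P2 z, p.Prime := fun z p hp => (mem_filter.1 hp).2.1
  have h1 : ∀ m ∈ NS y, ∑ p ∈ P2 (H / m), Real.log p - Real.log m ≤
      ∑ p ∈ P2 H, if m * p ≤ H ∧ ¬ p ∣ m then Real.log p else 0 := fun m hm => by
    have hm0 : 0 < m := (mem_Icc.1 (mem_filter.1 hm).1).1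
    have a1 := log_dvd hm0 _ (hQ (H / m))
    have a2 := sum_filter_add_sum_filter_not (P2 (H / m)) (fun p => p ∣ m) fun p => Real.log p
    have a3 : ∑ p ∈ P2 (H / m) with ¬ p ∣ m, Real.log p ≤
        ∑ p ∈ P2 H with m * p ≤ H ∧ ¬ p ∣ m, Real.log p := by
      refine sum_le_sum_of_subset_of_nonneg (fun p hp => ?_) fun p _ _ => Real.log_natCast_nonneg p
      obtain ⟨b1, b2⟩ := mem_filter.1 hp
      obtain ⟨b3, b4⟩ := mem_filter.1 b1
      obtain ⟨b5, b6⟩ := mem_Icc.1 b3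
      refine mem_filter.2 ⟨mem_filter.2 ⟨mem_Icc.2 ⟨b5, b6.trans (Nat.div_le_self _ _)⟩, b4⟩, ?_, b2⟩
      rw [mul_comm]
      exact (Nat.le_div_iff_mul_le hm0).1 b6
    rw [← sum_filter]
    linarith
  have h2 : ∀ p ∈ P2 H, ∑ m ∈ NS y, (if m * p ≤ H ∧ ¬ p ∣ m then Real.log p else 0) ≤
      ∑ n ∈ NS H, if p ∣ n then Real.log p else 0 := fun p hp => by
    have hpp := hQ H p hp
    rw [← sum_filter, ← sum_filter, sum_const, sum_const, nsmul_eq_mul, nsmul_eq_mul]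
    refine mul_le_mul_of_nonneg_right ?_ (Real.log_natCast_nonneg p)
    refine Nat.cast_le.2 (card_le_card_of_injOn (fun m => m * p) (fun m hm => ?_) fun a _ b _ hab => ?_)
    · obtain ⟨b1, b2, b3⟩ := mem_filter.1 (mem_coe.1 hm)
      obtain ⟨b4, b5, b6⟩ := mem_filter.1 b1
      refine mem_coe.2 (mem_filter.2 ⟨mem_filter.2 ⟨mem_Icc.2
        ⟨Nat.mul_pos (mem_Icc.1 b4).1 hpp.pos, b2⟩, ?_, fun q hq hd => ?_⟩, dvd_mul_left _ _⟩)
      · exact (Nat.squarefree_mul ((Nat.Prime.coprime_iff_not_dvd hpp).2 b3).symm).2 ⟨b5, hpp.prime.squarefree⟩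
      · rcases (Nat.Prime.dvd_mul hq).1 hd with hd | hd
        · exact b6 q hq hd
        · rw [(Nat.prime_dvd_prime_iff_eq hq hpp).1 hd]
          exact (mem_filter.1 hp).2.2
    · exact Nat.eq_of_mul_eq_mul_right hpp.pos hab
  have h3 : ∀ n ∈ NS H, ∑ p ∈ P2 H, (if p ∣ n then Real.log p else 0) ≤ Real.log H := fun n hn => by
    obtain ⟨b1, b2⟩ := mem_Icc.1 (mem_filter.1 hn).1
    rw [← sum_filter]
    exact (log_dvd b1 _ (hQ H)).trans (Real.log_le_log (by exact_mod_cast b1) (by exact_mod_cast b2))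
  refine (sum_le_sum h1).trans ?_
  rw [sum_comm]
  refine (sum_le_sum h2).trans ?_
  rw [sum_comm]
  refine (sum_le_sum h3).trans (le_of_eq ?_)
  rw [sum_const, nsmul_eq_mul]

lemma theta_low : ∃ X : ℝ, ∀ H m : ℕ, X ≤ (H : ℝ) / m →
    (H : ℝ) / m / 4 ≤ ∑ p ∈ P2 (H / m), Real.log p := by
  have hu : IsUnit (2 : ZMod 3) := by decide
  have h := Shared.PNTAP.theta_ap hu
  have ht : ((Nat.totient 3 : ℕ) : ℝ)⁻¹ = 1 / 2 := by
    rw [Nat.totient_prime Nat.prime_three]; norm_num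
  rw [ht] at h
  obtain ⟨X, hX⟩ := eventually_atTop.1 ((h.eventually (lt_mem_nhds (show (1 / 4 : ℝ) < 1 / 2 by norm_num))).and
    (eventually_gt_atTop (0 : ℝ)))
  refine ⟨X, fun H m hm => ?_⟩
  obtain ⟨a1, a2⟩ := hX _ hm
  rw [lt_div_iff₀ a2] at a1
  have e : Shared.PNTAP.thetaAP (2 : ZMod 3) ((H : ℝ) / m) = ∑ p ∈ P2 (H / m), Real.log p := by
    rw [Shared.PNTAP.thetaAP, Nat.floor_div_eq_div, P2]
    refine sum_congr (filter_congr fun p _ => and_congr_right fun _ => ?_) fun _ _ => rfl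
    exact ZMod.natCast_eq_natCast_iff' p 2 3
  rw [e] at a1
  linarith

end NNa

open NNa

theorem nn : NNSt := by
  obtain ⟨c, hc, hm⟩ := mlow
  obtain ⟨X, hX⟩ := theta_low
  refine ⟨c / 16, by positivity, ?_⟩
  have t1 : Tendsto (fun H : ℕ => √(H : ℝ)) atTop atTop :=
    Real.tendsto_sqrt_atTop.comp tendsto_natCast_atTop_atTop
  have t2 : ∀ᶠ H : ℕ in atTop, ‖Real.log √(H : ℝ)‖ ≤ 1 / 16 * ‖√(H : ℝ)‖ :=
    t1.eventually (Real.isLittleO_log_id_atTop.def (by norm_num))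
  filter_upwards [t1.eventually_ge_atTop X, t2, eventually_ge_atTop 4] with H h1 h2 h3
  have hH : (4 : ℝ) ≤ H := by exact_mod_cast h3
  have hl : 0 < Real.log H := Real.log_pos (by linarith)
  have hs : 0 < √(Real.log H) := Real.sqrt_pos.2 hl
  rw [Real.log_sqrt (by positivity), Real.norm_of_nonneg (by positivity),
    Real.norm_of_nonneg (by positivity)] at h2
  have hy : 2 ≤ H.sqrt := Nat.le_sqrt.2 (by omega)
  have a1 : ∀ m ∈ NS H.sqrt, (H : ℝ) / 8 * (1 / m) ≤ ∑ p ∈ P2 (H / m), Real.log p - Real.log m :=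
    fun m hm => by
      obtain ⟨b1, b2⟩ := mem_Icc.1 (mem_filter.1 hm).1
      have b0 : (0 : ℝ) < m := by exact_mod_cast b1
      have b3 : (m : ℝ) ≤ √(H : ℝ) :=
        Real.le_sqrt_of_sq_le (by exact_mod_cast Nat.le_sqrt'.1 b2)
      have b4 : √(H : ℝ) ≤ H / m := by
        rw [le_div_iff₀ b0]
        nlinarith [Real.mul_self_sqrt (show (0 : ℝ) ≤ H by positivity), Real.sqrt_nonneg (H : ℝ)]
      have b5 := hX H m (h1.trans b4)
      have b6 : Real.log m ≤ Real.log H :=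
        Real.log_le_log b0 (by exact_mod_cast b2.trans (Nat.sqrt_le_self H))
      have b7 : (H : ℝ) / 8 * (1 / m) = H / m / 8 := by ring
      linarith
  have a2 := (sum_le_sum a1).trans (logsum H H.sqrt)
  rw [← mul_sum] at a2
  have a3 := hm _ hy
  have a4 : √(Real.log H) ≤ 2 * √(Real.log H.sqrt) := by
    have b1 : H ≤ H.sqrt ^ 4 := by
      have := Nat.lt_succ_sqrt' H
      have b2 : H.sqrt.succ ≤ H.sqrt ^ 2 := by
        rw [Nat.succ_eq_add_one]; nlinarith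
      calc H ≤ H.sqrt.succ ^ 2 := this.le
        _ ≤ (H.sqrt ^ 2) ^ 2 := Nat.pow_le_pow_left b2 2
        _ = _ := by ring
    have b2 : Real.log H ≤ 4 * Real.log H.sqrt := by
      have := Real.log_le_log (by linarith : (0 : ℝ) < H) (show (H : ℝ) ≤ (H.sqrt : ℝ) ^ 4 by exact_mod_cast b1)
      rwa [Real.log_pow] at this
    refine Real.sqrt_le_iff.2 ⟨by positivity, ?_⟩
    rw [mul_pow, Real.sq_sqrt (Real.log_natCast_nonneg _)]
    linarith
  have a5 : c / 16 * H * √(Real.log H) ≤ #(NS H) * (√(Real.log H) * √(Real.log H)) := by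
    rw [Real.mul_self_sqrt hl.le]
    refine le_trans ?_ a2
    have b1 : c / 2 * √(Real.log H) ≤ ∑ m ∈ NS H.sqrt, (1 : ℝ) / m := by nlinarith
    have := mul_le_mul_of_nonneg_left b1 (show (0 : ℝ) ≤ H / 8 by positivity)
    linarith
  rw [div_le_iff₀ hs]
  rw [← mul_assoc] at a5
  exact le_of_mul_le_mul_right a5 hs

theorem low (h1 : LocSt) (h2 : NNSt) : LowSt := by
  obtain ⟨c, hc, h2⟩ := h2
  refine ⟨(c / 27) ^ 3, by positivity, ?_⟩
  filter_upwards [h2] with H hH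
  obtain ⟨r, -, hr⟩ := exists_le_card_fiber_of_nsmul_le_card_of_maps_to (s := NS H) (t := range 27)
    (f := fun n => n % 27) (b := c / 27 * H / √(Real.log H))
    (fun a _ => mem_range.2 (Nat.mod_lt _ (by norm_num))) ⟨0, by simp⟩ (by
      rw [card_range, nsmul_eq_mul]
      refine le_trans (le_of_eq ?_) hH
      push_cast
      ring)
  set R := {n ∈ NS H | n % 27 = r} with hR
  have a1 : R ×ˢ R ×ˢ R ⊆ {t ∈ Box H | Loc t.1 t.2.1 t.2.2} := fun t ht => by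
    obtain ⟨b1, b2⟩ := mem_product.1 ht
    obtain ⟨b2, b3⟩ := mem_product.1 b2
    obtain ⟨c1, c2⟩ := mem_filter.1 b1
    obtain ⟨d1, d2⟩ := mem_filter.1 b2
    obtain ⟨e1, -⟩ := mem_filter.1 b3
    exact mem_filter.2 ⟨mem_product.2 ⟨(mem_filter.1 c1).1, mem_product.2
      ⟨(mem_filter.1 d1).1, (mem_filter.1 e1).1⟩⟩, h1 _ _ _ (mem_filter.1 c1).2 (mem_filter.1 d1).2
        (mem_filter.1 e1).2 (c2.trans d2.symm)⟩
  have a2 : ((#R : ℝ)) ^ 3 ≤ #{t ∈ Box H | Loc t.1 t.2.1 t.2.2} := by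
    have := card_le_card a1
    rw [card_product, card_product] at this
    have h3 : #R ^ 3 ≤ #{t ∈ Box H | Loc t.1 t.2.1 t.2.2} := le_trans (le_of_eq (by ring)) this
    exact_mod_cast h3
  refine le_trans ?_ ((pow_le_pow_left₀ (by positivity) hr 3).trans a2)
  rw [div_pow (c / 27 * H), mul_pow]

end Pool.Agent.Lib.MP_65b7ad_nt.DC
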