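import Pool.Agent.Lib.MP_65b7ad_nt.DC.Cnt2
import Pool.Agent.Shared.BrunSieve

/-!
Diagonal plane cubics: the number of prime pairs that satisfy the local conditions.
-/

open Finset

noncomputable section

namespace Pool.Agent.Lib.MP_65b7ad_nt.DC

open Classical

namespace Pair

lemma sv_nonneg {y : ℕ} (z k h : ℕ) (hy : 2 ≤ y) : 0 ≤ sv y z k h := by
  have : 0 ≤ Real.log y := Real.log_nonneg (by exact_mod_cast (by omega : 1 ≤ y))
  unfold sv
  positivity

lemma cnt_dvd {r : ℕ} (hr : 0 < r) : #{m ∈ range r | r ∣ m + 1} = 1 := by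
  rw [card_eq_one]
  refine ⟨r - 1, ?_⟩
  ext m
  simp only [mem_filter, mem_range, mem_singleton]
  constructor
  · rintro ⟨h1, h2⟩
    have := Nat.le_of_dvd (by omega) h2
    omega
  · rintro rfl
    exact ⟨by omega, by rw [Nat.sub_add_cancel hr]⟩

lemma cnt_pw {r u w : ℕ} (hr : r.Prime) (h3 : r % 3 = 1) (hu : ¬ r ∣ u) :
    #{m ∈ range r | pw r (u * (m + 1)) = pw r w} ≤ (r - 1) / 3 := by
  have := Fact.mk hr
  have h2 := hr.two_le
  have hpos : 0 < (r - 1) / 3 := by omega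
  have hu0 : (u : ZMod r) ≠ 0 := fun h => hu ((ZMod.natCast_eq_zero_iff u r).1 h)
  refine le_trans ?_ (le_trans (Multiset.toFinset_card_le _)
    (Polynomial.card_nthRoots ((r - 1) / 3) (pw r w)))
  refine card_le_card_of_injOn (fun m => ((u * (m + 1) : ℕ) : ZMod r)) ?_ ?_
  · intro m hm
    simp only [coe_filter, Set.mem_ofPred_eq] at hm
    simp only [mem_coe, Multiset.mem_toFinset, Polynomial.mem_nthRoots hpos]
    exact hm.2
  · intro m hm m' hm' e
    simp only [coe_filter, Set.mem_ofPred_eq, mem_range] at hm hm'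
    have e1 : (u : ZMod r) * ((m : ZMod r) + 1) = u * ((m' : ZMod r) + 1) := by
      simpa using e
    have e2 : (m : ZMod r) = m' := add_right_cancel (mul_left_cancel₀ hu0 e1)
    exact Nat.ModEq.eq_of_lt_of_lt ((ZMod.natCast_eq_natCast_iff _ _ _).1 e2) hm.1 hm'.1

lemma prod_le {y : ℕ} (hy : 2 ≤ y) : ∏ r ∈ PL y, (1 - (r : ℝ)⁻¹) ≤ 1 / Real.log y := by
  have h1 := Pool.Agent.Shared.BrunSieve.log_le_prod_inv y
  have hy1 : (1 : ℝ) < y := by exact_mod_cast (by omega : 1 < y)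
  have hl : 0 < Real.log y := Real.log_pos hy1
  have h2 : Real.log y ≤ Real.log (y + 1) := Real.log_le_log (by linarith) (by linarith)
  rw [prod_inv_distrib] at h1
  have hp : 0 < ∏ r ∈ PL y, (1 - (r : ℝ)⁻¹) := by
    refine prod_pos fun r hr => ?_
    have : (1 : ℝ) < r := by exact_mod_cast (mem_filter.1 hr).2.one_lt
    have := inv_lt_one_of_one_lt₀ this
    linarith
  rw [one_div]
  exact (le_inv_comm₀ hp hl).2 (h2.trans h1)

lemma one {y z k h : ℕ} (X : ℕ) (T : Finset ℕ) (hy : 2 ≤ y) (hyz : y ≤ z) (hh : Even h)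
    (hT : ∀ l ∈ T, l.Prime ∧ l % 3 = 1 ∧ l ≤ y) (hk : #T ≤ k) (u w : ℕ → ℕ)
    (hu : ∀ l ∈ T, ¬ l ∣ u l) :
    (#{n ∈ Ioc z X | n.Prime ∧ ∀ l ∈ T, pw l (u l * n) = pw l (w l)} : ℝ) ≤
      X * sv y z k h / 3 ^ #T := by
  have hsv := sv_nonneg z k h hy
  rcases le_or_gt X z with hX | hX
  · rw [Ioc_eq_empty (not_lt.2 hX)]
    simp only [filter_empty, card_empty, Nat.cast_zero]
    positivity
  have hP : ∀ r ∈ PL y, r.Prime := fun r hr => (mem_filter.1 hr).2
  have hle : ∀ r ∈ PL y, r ≤ y := fun r hr => by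
    have := mem_range.1 (mem_filter.1 hr).1
    omega
  have hTP : T ⊆ PL y := fun l hl =>
    mem_filter.2 ⟨mem_range.2 (by have := (hT l hl).2.2; omega), (hT l hl).1⟩
  let A : ℕ → ℕ → Prop := fun r m =>
    if r ∈ T then ¬ pw r (u r * (m + 1)) = pw r (w r) else r ∣ m + 1
  let g : ℕ → ℝ := fun r => #{n ∈ range r | A r n} / r
  have hA : ∀ r ∈ PL y, Function.Periodic (A r) r := by
    intro r _ m
    have e : pw r (u r * (m + r + 1)) = pw r (u r * (m + 1)) := by
      unfold pw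
      simp
    have e2 : r ∣ m + r + 1 ↔ r ∣ m + 1 := by
      rw [show m + r + 1 = r + (m + 1) by ring]
      exact Nat.dvd_add_right dvd_rfl
    simp only [A, e, e2]
  have hb := Pool.Agent.Shared.BrunSieve.brun (PL y) hP A hA g (fun _ _ => rfl) y (by omega) hle
    h hh X
  have hgN : ∀ r ∈ PL y, r ∉ T → g r = (r : ℝ)⁻¹ := by
    intro r hr hrT
    have : #{n ∈ range r | A r n} = 1 := by
      refine Eq.trans ?_ (cnt_dvd (hP r hr).pos)
      congr 1
      exact filter_congr fun n _ => by simp only [A, if_neg hrT]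
    simp only [g, this, Nat.cast_one, one_div]
  have hg1 : ∀ r ∈ PL y, 0 ≤ g r ∧ g r ≤ 1 := by
    intro r hr
    have h0 : (0 : ℝ) < r := by exact_mod_cast (hP r hr).pos
    refine ⟨by positivity, (div_le_one h0).2 ?_⟩
    exact_mod_cast (card_filter_le _ _).trans (card_range r).le
  have hgT : ∀ r ∈ T, 1 - g r ≤ (1 - (r : ℝ)⁻¹) * (1 / 3) := by
    intro r hr
    obtain ⟨hp, h3, -⟩ := hT r hr
    have h0 : (0 : ℝ) < r := by exact_mod_cast hp.pos
    have c1 := cnt_pw (w := w r) hp h3 (hu r hr)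
    have c2 := card_filter_add_card_filter_not (s := range r)
      (fun m => pw r (u r * (m + 1)) = pw r (w r))
    have c3 : #{n ∈ range r | A r n} = #{n ∈ range r | ¬ pw r (u r * (n + 1)) = pw r (w r)} := by
      congr 1
      exact filter_congr fun n _ => by simp only [A, if_pos hr]
    rw [card_range] at c2
    have c4 : 2 * r + 1 ≤ 3 * #{n ∈ range r | A r n} := by have := hp.two_le; omega
    have c5 : (2 * r + 1 : ℝ) ≤ 3 * #{n ∈ range r | A r n} := by exact_mod_cast c4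
    have c6 : (2 * r + 1 : ℝ) / (3 * r) ≤ g r := by
      simp only [g]
      rw [div_le_div_iff₀ (by positivity) h0]
      nlinarith
    have c7 : (2 * r + 1 : ℝ) / (3 * r) = 1 - (1 - (r : ℝ)⁻¹) * (1 / 3) := by
      field_simp
      ring
    linarith
  have hite : ∀ t : ℝ, ∏ r ∈ PL y, (if r ∈ T then t else 1) = t ^ #T := by
    intro t
    rw [prod_ite_mem, inter_eq_right.2 hTP, prod_const]
  have p1 : ∏ r ∈ PL y, (1 - g r) ≤ 1 / Real.log y / 3 ^ #T := by
    calc _ ≤ ∏ r ∈ PL y, ((1 - (r : ℝ)⁻¹) * if r ∈ T then (1 / 3 : ℝ) else 1) := by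
          refine prod_le_prod (fun r hr => by linarith [(hg1 r hr).2]) fun r hr => ?_
          split_ifs with hrT
          · exact hgT r hrT
          · rw [hgN r hr hrT, mul_one]
      _ = (∏ r ∈ PL y, (1 - (r : ℝ)⁻¹)) / 3 ^ #T := by
          rw [prod_mul_distrib, hite, one_div, inv_pow, div_eq_mul_inv]
      _ ≤ _ := div_le_div_of_nonneg_right (prod_le hy) (by positivity)
  have p2 : ∏ r ∈ PL y, (1 + 2 * g r) ≤ 3 ^ #T * Real.exp (2 * ∑ p ∈ PL y, (1 : ℝ) / p) := by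
    rw [mul_sum, Real.exp_sum, ← hite, ← prod_mul_distrib]
    refine prod_le_prod (fun r hr => by linarith [(hg1 r hr).1]) fun r hr => ?_
    have e1 := Real.add_one_le_exp (2 * ((1 : ℝ) / r))
    have e2 : (0 : ℝ) ≤ 2 * ((1 : ℝ) / r) := by positivity
    split_ifs with hrT
    · linarith [(hg1 r hr).2]
    · rw [hgN r hr hrT, ← one_div]
      linarith
  have hsub : #{n ∈ Ioc z X | n.Prime ∧ ∀ l ∈ T, pw l (u l * n) = pw l (w l)} ≤
      #{n ∈ range X | ∀ r ∈ PL y, ¬ A r n} := by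
    refine card_le_card_of_injOn (fun n => n - 1) ?_ ?_
    · intro n hn
      simp only [coe_filter, Set.mem_ofPred_eq, mem_Ioc, mem_range] at hn ⊢
      obtain ⟨⟨h1, h2⟩, hp, hB⟩ := hn
      refine ⟨by omega, fun r hr => ?_⟩
      simp only [A, Nat.sub_add_cancel hp.pos]
      split_ifs with hrT
      · exact not_not.2 (hB r hrT)
      · intro hd
        have := (Nat.prime_dvd_prime_iff_eq (hP r hr) hp).1 hd
        have := hle r hr
        omega
    · intro n hn n' hn' e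
      simp only [coe_filter, Set.mem_ofPred_eq, mem_Ioc] at hn hn' e
      omega
  have hz0 : (0 : ℝ) < z := by exact_mod_cast (by omega : 0 < z)
  have hzX : (z : ℝ) ≤ X := by exact_mod_cast hX.le
  have q1 : (X : ℝ) / 2 ^ h + y ^ h ≤ X * (1 / 2 ^ h + (y : ℝ) ^ h / z) := by
    have : (y : ℝ) ^ h ≤ X * ((y : ℝ) ^ h / z) := by
      rw [← mul_div_assoc, le_div_iff₀ hz0, mul_comm]
      exact mul_le_mul_of_nonneg_right hzX (by positivity)
    rw [mul_add, mul_one_div]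
    linarith
  have q2 : (3 : ℝ) ^ #T ≤ 9 ^ k / 3 ^ #T := by
    rw [le_div_iff₀ (by positivity), ← mul_pow]
    norm_num
    exact pow_le_pow_right₀ (by norm_num) hk
  calc _ ≤ (#{n ∈ range X | ∀ r ∈ PL y, ¬ A r n} : ℝ) := by exact_mod_cast hsub
    _ ≤ _ := by convert hb
    _ ≤ X * (1 / Real.log y / 3 ^ #T) + X * (1 / 2 ^ h + (y : ℝ) ^ h / z) *
        (9 ^ k / 3 ^ #T * Real.exp (2 * ∑ p ∈ PL y, (1 : ℝ) / p)) := by
      refine add_le_add (mul_le_mul_of_nonneg_left p1 (by positivity)) ?_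
      refine mul_le_mul q1 (p2.trans (mul_le_mul_of_nonneg_right q2 (by positivity))) ?_
        (by positivity)
      exact prod_nonneg fun r hr => by linarith [(hg1 r hr).1]
    _ = _ := by unfold sv; ring

end Pair

theorem pair2 : PairSt2 := by
  intro a b c y z k h X₁ X₂ S hy hyz hh hS hSy hk
  have hsv := Pair.sv_nonneg z k h hy
  set S1 := {l ∈ S | l % 3 = 1} with hS1
  let T1 := {l ∈ S1 | l ∣ a}
  let T2 := {l ∈ S1 | ¬ l ∣ a}
  have hc : #T1 + #T2 = #S1 := card_filter_add_card_filter_not _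
  have hk1 : #S1 ≤ k := (card_filter_le _ _).trans hk
  have h1 : ∀ l ∈ S1, l.Prime ∧ l % 3 = 1 ∧ l ≤ y := fun l hl =>
    ⟨(hS l (mem_filter.1 hl).1).1, (mem_filter.1 hl).2, hSy l (mem_filter.1 hl).1⟩
  have hQ := Pair.one (z := z) (k := k) X₂ T1 hy hyz hh (fun l hl => h1 l (mem_filter.1 hl).1)
    (by omega) (fun _ => b) (fun _ => c) (by
      intro l hl hb
      obtain ⟨hl1, ha⟩ := mem_filter.1 hl
      refine (hS l (mem_filter.1 hl1).1).2.2.2 ?_
      rw [sq]
      exact Dvd.dvd.mul_right (mul_dvd_mul ha hb) c)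
  have hP := fun q : ℕ => Pair.one (z := z) (k := k) X₁ T2 hy hyz hh
    (fun l hl => h1 l (mem_filter.1 hl).1) (by omega) (fun _ => a)
    (fun l => if l ∣ b then c else b * q) (fun l hl => (mem_filter.1 hl).2)
  set Q := {n ∈ Ioc z X₂ | n.Prime ∧ ∀ l ∈ T1, pw l (b * n) = pw l c} with hQd
  let P : ℕ → Finset ℕ := fun q =>
    {n ∈ Ioc z X₁ | n.Prime ∧ ∀ l ∈ T2, pw l (a * n) = pw l (if l ∣ b then c else b * q)}
  have hsub : {r ∈ Prs2 (a * b * c) z X₁ X₂ | ELS S (a * r.1) (b * r.2) c} ⊆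
      Q.biUnion fun q => (P q).image fun p => (p, q) := by
    rintro ⟨p, q⟩ hr
    obtain ⟨hr1, hE⟩ := mem_filter.1 hr
    obtain ⟨hr2, hp, hq, -⟩ := mem_filter.1 hr1
    obtain ⟨hp1, hq1⟩ := mem_product.1 hr2
    refine mem_biUnion.2 ⟨q, mem_filter.2 ⟨hq1, hq, fun l hl => ?_⟩,
      mem_image.2 ⟨p, mem_filter.2 ⟨hp1, hp, fun l hl => ?_⟩, rfl⟩⟩
    · obtain ⟨hl1, ha⟩ := mem_filter.1 hl
      obtain ⟨hl2, h3⟩ := mem_filter.1 hl1
      exact (hE l hl2 h3).1 (Dvd.dvd.mul_right ha _)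
    · obtain ⟨hl1, ha⟩ := mem_filter.1 hl
      obtain ⟨hl2, h3⟩ := mem_filter.1 hl1
      split_ifs with hb
      · exact (hE l hl2 h3).2.1 (Dvd.dvd.mul_right hb _)
      · obtain ⟨hl, -, hd, -⟩ := hS l hl2
        refine (hE l hl2 h3).2.2 ?_
        rcases (Nat.Prime.dvd_mul hl).1 hd with hd | hd
        · rcases (Nat.Prime.dvd_mul hl).1 hd with hd | hd
          · exact absurd hd ha
          · exact absurd hd hb
        · exact hd
  have hcard : #{r ∈ Prs2 (a * b * c) z X₁ X₂ | ELS S (a * r.1) (b * r.2) c} ≤ ∑ q ∈ Q, #(P q) :=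
    (card_le_card hsub).trans (card_biUnion_le.trans (sum_le_sum fun q _ => card_image_le))
  calc _ ≤ ∑ q ∈ Q, (#(P q) : ℝ) := by exact_mod_cast hcard
    _ ≤ ∑ q ∈ Q, X₁ * sv y z k h / 3 ^ #T2 := sum_le_sum fun q _ => hP q
    _ = #Q * (X₁ * sv y z k h / 3 ^ #T2) := by rw [sum_const, nsmul_eq_mul]
    _ ≤ X₂ * sv y z k h / 3 ^ #T1 * (X₁ * sv y z k h / 3 ^ #T2) :=
      mul_le_mul_of_nonneg_right hQ (by positivity)
    _ = _ := by rw [← hc, pow_add]; field_simp

end Pool.Agent.Lib.MP_65b7ad_nt.DC
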