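import Pool.Agent.Lib.MP_65b7ad_nt.DC.Cnt
import Pool.Agent.Shared.BrunSieve

/-!
Choice of the parameters in the upper bound.
-/

open Finset Real

noncomputable section

namespace Pool.Agent.Lib.MP_65b7ad_nt.DC

open Classical

namespace Up

lemma fl {v : ℝ} (hv : 2 ≤ v) : exp (v / 2) ≤ (⌊exp v⌋₊ : ℝ) ∧ (⌊exp v⌋₊ : ℝ) ≤ exp v := by
  refine ⟨?_, Nat.floor_le (exp_pos _).le⟩
  have h1 := Nat.lt_floor_add_one (exp v)
  have h2 : exp v = exp (v / 2) * exp (v / 2) := by rw [← exp_add]; congr 1; ring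
  have h3 := add_one_le_exp (v / 2)
  nlinarith

lemma ep {y : ℕ} {t : ℝ} (ht : 2 ≤ t) (hy : (y : ℝ) ≤ exp (exp t)) :
    exp (2 * ∑ p ∈ PL y, (1 : ℝ) / p) ≤ exp 18 * exp (32 * t) := by
  have h3 := add_one_le_exp t
  have h1 : 2 * exp t ≤ (⌈2 * exp t⌉₊ : ℝ) := Nat.le_ceil _
  have h2 : (⌈2 * exp t⌉₊ : ℝ) < 2 * exp t + 1 := Nat.ceil_lt_add_one (by positivity)
  generalize ⌈2 * exp t⌉₊ = n at h1 h2
  have hn : 1 ≤ n := by
    have : (1 : ℝ) ≤ n := by linarith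
    exact_mod_cast this
  have hy2 : y ≤ 2 ^ n := by
    have : (y : ℝ) ≤ 2 ^ n := by
      refine hy.trans ?_
      rw [← exp_log (by norm_num : (0 : ℝ) < 2), ← exp_nat_mul]
      exact exp_le_exp.2 (by nlinarith [log_two_gt_d9])
    exact_mod_cast this
  have h4 : ∑ p ∈ PL y, (1 : ℝ) / p ≤ ∑ r ∈ (range (2 ^ n + 1)).filter Nat.Prime, (r : ℝ)⁻¹ := by
    simp only [one_div]
    exact sum_le_sum_of_subset_of_nonneg (filter_subset_filter _ (range_mono (by omega)))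
      fun r _ _ => by positivity
  have h5 : 0 ≤ ∑ p ∈ PL y, (1 : ℝ) / p := sum_nonneg fun _ _ => by positivity
  refine (exp_le_exp.2 (by linarith)).trans
    ((Pool.Agent.Shared.BrunSieve.exp_sum_inv_primes_le n hn).trans ?_)
  have h6 : (n : ℝ) ≤ exp t ^ 2 := by nlinarith
  have h7 : exp (32 * t) = (exp t ^ 2) ^ 16 := by
    rw [← pow_mul, ← exp_nat_mul]; norm_num
  rw [h7]
  gcongr

lemma pw_le {x v : ℝ} (h0 : 0 ≤ x) (h : x ≤ exp v) (m : ℕ) : x ^ m ≤ exp (m * v) := by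
  rw [exp_nat_mul]
  exact pow_le_pow_left₀ h0 h m

lemma par (A H : ℕ) (t u : ℝ) (hH : (H : ℝ) = exp (exp t)) (hu : exp t = u * t ^ 3)
    (ht : 5760 * (17 * A + 10) ≤ t) (hu6 : 6 * t ≤ u) :
    ∃ w y z K h : ℕ, 3 ≤ w ∧ w ≤ y ∧ y ≤ z ∧ Even h ∧ y ≤ H ∧ z ^ (2 * K) ≤ H ∧
      1 / (w : ℝ) + 1 / √H + (3 / 4) ^ K * exp t ^ 2 ≤ 3 / exp t ^ 2 ∧
      0 ≤ sv y z (3 * K) h ∧ sv y z (3 * K) h ≤ (2 + 2 * exp 18) / u ∧ u * t ^ 2 / 80 ≤ log z ∧
      0 ≤ log w ∧ log w ≤ 3 * t ∧ u / 2 ≤ log y ∧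
      (y : ℝ) ^ (A * K) * (1 + exp t) ^ 2 / (z : ℝ) ^ (1 / 72 : ℝ) ≤ 1 / exp t ^ 2 := by
  have hA : (0 : ℝ) ≤ A := Nat.cast_nonneg A
  have t0 : 57600 ≤ t := by linarith
  have u0 : 2 ≤ u := by linarith
  have t2 : 80 ≤ t ^ 2 := by nlinarith
  have t3 : 1 ≤ t ^ 3 := one_le_pow₀ (by linarith)
  have ut : t ≤ t * u := by nlinarith
  have utt : u * t ^ 2 = t * (t * u) := by ring
  have hL := add_one_le_exp t
  have hL2 : exp t ^ 2 = exp (2 * t) := by rw [← exp_nat_mul]; norm_num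
  have hL3 : exp (3 * t) = exp t ^ 2 * exp t := by rw [hL2, ← exp_add]; congr 1; ring
  have hLi : 1 / exp t ^ 2 = exp (-(2 * t)) := by rw [hL2, exp_neg, one_div]
  obtain ⟨y1, y2⟩ := fl u0
  obtain ⟨z1, z2⟩ := fl (v := u * t ^ 2 / 40) (by nlinarith)
  have w1 : exp t ^ 2 ≤ (⌈exp t ^ 2⌉₊ : ℝ) := Nat.le_ceil _
  have w2 : (⌈exp t ^ 2⌉₊ : ℝ) < exp t ^ 2 + 1 := Nat.ceil_lt_add_one (by positivity)
  have k1 : 16 * t ≤ (⌈16 * t⌉₊ : ℝ) := Nat.le_ceil _
  have k2 : (⌈16 * t⌉₊ : ℝ) < 16 * t + 1 := Nat.ceil_lt_add_one (by positivity)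
  generalize ⌊exp u⌋₊ = y at y1 y2
  generalize ⌊exp (u * t ^ 2 / 40)⌋₊ = z at z1 z2
  generalize ⌈exp t ^ 2⌉₊ = w at w1 w2
  generalize ⌈16 * t⌉₊ = K at k1 k2
  have k3 : (K : ℝ) ≤ 17 * t := by linarith
  have e2 : 3 ≤ exp t ^ 2 := by nlinarith
  have w3 : (w : ℝ) ≤ exp (3 * t) := by rw [hL3]; nlinarith
  have y0 : (0 : ℝ) < y := (exp_pos _).trans_le y1
  have z0 : (0 : ℝ) < z := (exp_pos _).trans_le z1
  have ly : u / 2 ≤ log y := (le_log_iff_exp_le y0).2 y1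
  have yH : (y : ℝ) ≤ exp (exp t) := y2.trans (exp_le_exp.2 (by rw [hu]; nlinarith))
  have q : (3 / 4 : ℝ) ^ K ≤ exp (-(4 * t)) :=
    (pw_le (v := -(1 / 4)) (by norm_num) (by linarith [add_one_le_exp (-(1 / 4) : ℝ)]) K).trans
      (exp_le_exp.2 (by linarith))
  have Ku : (K : ℝ) * u ≤ 17 * (t * u) := by nlinarith
  refine ⟨w, y, z, K, 16 * K, ?_, ?_, ?_, ⟨8 * K, by ring⟩, ?_, ?_, ?_, ?_, ?_, ?_, ?_, ?_, ly, ?_⟩
  · exact_mod_cast e2.trans w1
  · exact_mod_cast w3.trans ((exp_le_exp.2 (by linarith)).trans y1)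
  · exact_mod_cast y2.trans ((exp_le_exp.2 (by nlinarith)).trans z1)
  · exact_mod_cast yH.trans hH.ge
  · have : (z : ℝ) ^ (2 * K) ≤ H := by
      refine (pw_le z0.le z2 _).trans ((exp_le_exp.2 ?_).trans hH.ge)
      have : 0 ≤ u * t ^ 2 := by positivity
      have e : u * t ^ 3 = t * (u * t ^ 2) := by ring
      rw [hu, e]
      push_cast
      nlinarith
    exact_mod_cast this
  · have a1 : 1 / (w : ℝ) ≤ 1 / exp t ^ 2 := one_div_le_one_div_of_le (by positivity) w1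
    have a2 : 1 / √(H : ℝ) ≤ 1 / exp t ^ 2 := by
      refine one_div_le_one_div_of_le (by positivity) (le_sqrt_of_sq_le ?_)
      rw [hH, ← pow_mul, ← exp_nat_mul]
      refine exp_le_exp.2 ?_
      rw [hu]
      push_cast
      nlinarith
    have a3 : (3 / 4 : ℝ) ^ K * exp t ^ 2 ≤ 1 / exp t ^ 2 := by
      rw [hLi, hL2]
      refine (mul_le_mul_of_nonneg_right q (exp_pos _).le).trans ?_
      rw [← exp_add]
      exact exp_le_exp.2 (by linarith)
    have : 3 / exp t ^ 2 = 3 * (1 / exp t ^ 2) := by ring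
    linarith
  · have : 0 < log y := by linarith
    unfold sv
    positivity
  · have a1 : 1 / log y ≤ 2 / u := by
      rw [div_le_div_iff₀ (by linarith) (by linarith)]
      linarith
    have a2 : 1 / 2 ^ (16 * K) * (9 : ℝ) ^ (3 * K) ≤ exp (-(33 * t)) := by
      have e : 1 / 2 ^ (16 * K) * (9 : ℝ) ^ (3 * K) = (9 ^ 3 / 2 ^ 16) ^ K := by
        rw [pow_mul, pow_mul, div_pow]; ring
      calc _ ≤ (((3 / 4 : ℝ) ^ 9) ^ K) := by
            rw [e]
            exact pow_le_pow_left₀ (by norm_num) (by norm_num) K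
        _ = ((3 / 4 : ℝ) ^ K) ^ 9 := by rw [← pow_mul, ← pow_mul, mul_comm]
        _ ≤ _ := (pw_le (by positivity) q 9).trans (exp_le_exp.2 (by push_cast; linarith))
    have a3 : (y : ℝ) ^ (16 * K) / z * 9 ^ (3 * K) ≤ exp (-(33 * t)) := by
      have b1 := pw_le y0.le y2 (16 * K)
      have b2 := pw_le (x := 9) (v := 8) (by norm_num) (by linarith [add_one_le_exp (8 : ℝ)])
        (3 * K)
      calc _ ≤ exp ((16 * K : ℕ) * u) / exp (u * t ^ 2 / 40 / 2) * exp ((3 * K : ℕ) * 8) := by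
            gcongr
        _ ≤ _ := by
            rw [← exp_sub, ← exp_add, utt]
            refine exp_le_exp.2 ?_
            push_cast
            nlinarith
    have a4 := ep (t := t) (by linarith) yH
    have a5 : exp (-(33 * t)) * exp (32 * t) ≤ 1 / u := by
      rw [← exp_add, show -(33 * t) + 32 * t = -t by ring, exp_neg, ← one_div]
      refine one_div_le_one_div_of_le (by linarith) ?_
      rw [hu]
      nlinarith
    have a6 : (1 / 2 ^ (16 * K) + (y : ℝ) ^ (16 * K) / z) * 9 ^ (3 * K) ≤ 2 * exp (-(33 * t)) := by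
      rw [add_mul]
      linarith
    have a7 := mul_le_mul a6 a4 (exp_pos _).le (by positivity)
    have a8 := mul_le_mul_of_nonneg_left a5 (by positivity : (0 : ℝ) ≤ 2 * exp 18)
    have a9 : (2 + 2 * exp 18) / u = 2 / u + 2 * exp 18 * (1 / u) := by ring
    unfold sv
    rw [a9]
    linarith
  · exact (le_log_iff_exp_le z0).2 ((exp_le_exp.2 (by linarith)).trans z1)
  · exact log_nonneg (by linarith)
  · exact (log_le_iff_le_exp (by linarith)).2 w3
  · have b1 := pw_le y0.le y2 (A * K)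
    have b2 := pw_le (x := 1 + exp t) (v := 2 * t) (by positivity) (by rw [← hL2]; nlinarith) 2
    have b3 : exp (u * t ^ 2 / 40 / 2 * (1 / 72)) ≤ (z : ℝ) ^ (1 / 72 : ℝ) := by
      rw [exp_mul]
      exact rpow_le_rpow (exp_pos _).le z1 (by norm_num)
    calc _ ≤ exp ((A * K : ℕ) * u) * exp ((2 : ℕ) * (2 * t)) /
          exp (u * t ^ 2 / 40 / 2 * (1 / 72)) := by gcongr
      _ ≤ _ := by
          rw [hLi, ← exp_add, ← exp_sub, utt]
          refine exp_le_exp.2 ?_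
          have c1 := mul_le_mul_of_nonneg_left Ku hA
          have c2 := mul_le_mul_of_nonneg_right ht (by linarith : 0 ≤ t * u)
          push_cast
          nlinarith

end Up

theorem up (h1 : BadSt) (h2 : GoodSt) (h3 : EulSt) : UpSt := by
  obtain ⟨C₁, p1, h1⟩ := h1
  obtain ⟨A, C₂, p2, h2⟩ := h2
  obtain ⟨C₃, p3, h3⟩ := h3
  refine ⟨3 * C₁ + C₂ * ((2 + 2 * exp 18) ^ 2 * 80 * C₃ * 6 ^ 8 + 1), ?_⟩
  have lim : Filter.Tendsto (fun H : ℕ => log (log (H : ℝ))) Filter.atTop Filter.atTop :=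
    tendsto_log_atTop.comp (tendsto_log_atTop.comp tendsto_natCast_atTop_atTop)
  filter_upwards [lim.eventually_ge_atTop (5760 * (17 * A + 10)), Filter.eventually_ge_atTop 2]
    with H ht hH2
  have hH1 : (1 : ℝ) < H := by exact_mod_cast hH2
  have hL : log (H : ℝ) = exp (log (log H)) := (exp_log (log_pos hH1)).symm
  have hH : (H : ℝ) = exp (exp (log (log H))) := by rw [← hL, exp_log (by linarith)]
  generalize log (log (H : ℝ)) = t at ht hL hH
  have hA : (0 : ℝ) ≤ A := Nat.cast_nonneg A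
  have t0 : 57600 ≤ t := by linarith
  have tp : 0 < t := by linarith
  obtain ⟨u, hu⟩ : ∃ u, exp t = u * t ^ 3 := ⟨exp t / t ^ 3, by field_simp⟩
  have hu6 : 6 * t ≤ u := by
    have a := pow_div_factorial_le_exp t tp.le 5
    rw [hu, show ((Nat.factorial 5 : ℕ) : ℝ) = 120 by norm_num [Nat.factorial]] at a
    refine le_of_mul_le_mul_right (le_trans ?_ a) (pow_pos tp 3)
    have : 0 < t ^ 4 := by positivity
    nlinarith
  have up : 0 < u := by linarith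
  obtain ⟨w, y, z, K, h, w3, wy, yz, ev, yH, zH, b1, s0, s1, lz, lw0, lw, ly, b2⟩ :=
    Up.par A H t u hH hu ht hu6
  have g1 := h1 w z K H (by omega) hH2 zH
  have g2 := h2 w y z K h H w3 wy yz ev
  have g3 := h3 w y H (by omega) wy yH
  rw [hL] at g1 g2 g3 ⊢
  have t40 : 1 ≤ t ^ 40 := one_le_pow₀ (by linarith)
  have g4 : sv y z (3 * K) h ^ 2 / log z * (∑ n ∈ Icc 1 H, gw w y n / n) ^ 3 ≤
      (2 + 2 * exp 18) ^ 2 * 80 * C₃ * 6 ^ 8 * (t ^ 40 / exp t ^ 2) := by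
    have z0 : 0 < u * t ^ 2 / 80 := by positivity
    have z1 : 0 < log z := z0.trans_le lz
    have y1 : 0 < log y := by linarith
    calc _ ≤ sv y z (3 * K) h ^ 2 / log z * (C₃ * log w ^ 8 * exp t ^ 9 / log y ^ 8) :=
          mul_le_mul_of_nonneg_left g3 (by positivity)
      _ ≤ ((2 + 2 * exp 18) / u) ^ 2 / (u * t ^ 2 / 80) *
          (C₃ * (3 * t) ^ 8 * exp t ^ 9 / (u / 2) ^ 8) := by gcongr
      _ = (2 + 2 * exp 18) ^ 2 * 80 * C₃ * 6 ^ 8 * (t ^ 39 / exp t ^ 2) := by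
          rw [hu]
          field_simp
          ring
      _ ≤ _ := by
          gcongr
          · linarith
          · norm_num
  have g5 : 1 / exp t ^ 2 ≤ t ^ 40 / exp t ^ 2 := by gcongr
  have g6 : #{s ∈ Box H | Sol s.1 s.2.1 s.2.2} ≤
      #{s ∈ Box H | ¬ Good w z K s} + #{s ∈ Box H | Good w z K s ∧ Sol s.1 s.2.1 s.2.2} := by
    refine le_trans (card_le_card fun s hs => ?_) (card_union_le _ _)
    simp only [mem_filter, mem_union] at hs ⊢
    by_cases hg : Good w z K s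
    · exact Or.inr ⟨hs.1, hg, hs.2⟩
    · exact Or.inl ⟨hs.1, hg⟩
  have g7 : (#{s ∈ Box H | Sol s.1 s.2.1 s.2.2} : ℝ) ≤
      #{s ∈ Box H | ¬ Good w z K s} + #{s ∈ Box H | Good w z K s ∧ Sol s.1 s.2.1 s.2.2} := by
    exact_mod_cast g6
  have g8 : 3 / exp t ^ 2 = 3 * (1 / exp t ^ 2) := by ring
  have g9 := mul_le_mul_of_nonneg_left (b1.trans (g8.le.trans
    (mul_le_mul_of_nonneg_left g5 (by norm_num)))) (by positivity : 0 ≤ C₁ * (H : ℝ) ^ 3)
  have g10 := mul_le_mul_of_nonneg_left (add_le_add g4 (b2.trans g5))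
    (by positivity : 0 ≤ C₂ * (H : ℝ) ^ 3)
  refine (g7.trans (add_le_add (g1.trans g9) (g2.trans g10))).trans (le_of_eq ?_)
  ring

end Pool.Agent.Lib.MP_65b7ad_nt.DC
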