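import Pool.Agent.Lib.MP_65b7ad_nt.DS.All
import Pool.Agent.Lib.MP_65b7ad_nt.DC.Br
import Pool.Agent.Lib.MP_65b7ad_nt.DC.Good
import Pool.Agent.Lib.MP_65b7ad_nt.DC.Pair
import Pool.Agent.Lib.MP_65b7ad_nt.DC.Eul
import Pool.Agent.Lib.MP_65b7ad_nt.DC.Bad
import Pool.Agent.Lib.MP_65b7ad_nt.DC.Up
import Pool.Agent.Lib.MP_65b7ad_nt.DC.Loc
import Pool.Agent.Lib.MP_65b7ad_nt.DC.NN
import Pool.Agent.Lib.MP_65b7ad_nt.DC.Fin

/-! Diagonal plane cubics: the steps put together. -/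

namespace Pool.Agent.Lib.MP_65b7ad_nt.DC

theorem upAll : UpSt := up bad (good (ctx2 DS.loc1 DS.loc2 DS.idx DS.ctxAll) pair2) eul

theorem lowAll : LowSt := low loc nn

end Pool.Agent.Lib.MP_65b7ad_nt.DC
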