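import Mathlib

/-!
Diagonal plane cubics: definitions and statements of the counting part.
-/

open Finset

noncomputable section

namespace Pool.Agent.Lib.MP_65b7ad_nt.DC

open Classical

/-- The diagonal cubic has a nonzero solution in `R`. -/
def SolIn (R : Type) [CommRing R] (a b c : ℤ) : Prop :=
  ∃ x y z : R, ¬ (x = 0 ∧ y = 0 ∧ z = 0) ∧ a * x ^ 3 + b * y ^ 3 + c * z ^ 3 = 0

/-- Solubility in integers, for positive coefficients. -/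
def Sol (a b c : ℕ) : Prop := SolIn ℤ a b c

/-- Solubility in the reals and in every field of `p`-adic numbers. -/
def Loc (a b c : ℤ) : Prop :=
  SolIn ℝ a b c ∧ ∀ (p : ℕ) [Fact p.Prime], SolIn ℚ_[p] a b c

/-- The cubic residue symbol as an element of `ZMod l`. -/
def pw (l n : ℕ) : ZMod l := (n : ZMod l) ^ ((l - 1) / 3)

/-- The local conditions at the primes of `S`. -/
def ELS (S : Finset ℕ) (a b c : ℕ) : Prop :=
  ∀ l ∈ S, l % 3 = 1 →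
    (l ∣ a → pw l b = pw l c) ∧ (l ∣ b → pw l a = pw l c) ∧ (l ∣ c → pw l a = pw l b)

/-- The number of prime factors congruent to one modulo three. -/
def om1 (n : ℕ) : ℕ := #{l ∈ n.primeFactors | l % 3 = 1}

/-- The pairs of distinct primes of a context. -/
def Prs (n z X₁ X₂ : ℕ) : Finset (ℕ × ℕ) :=
  {r ∈ Ioc z X₁ ×ˢ Ioc z X₂ | r.1.Prime ∧ r.2.Prime ∧ r.1 ≠ r.2 ∧ ¬ r.1 ∣ n ∧ ¬ r.2 ∣ n}

/-- `S` is a set of primes other than three that divide `n` exactly. -/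
def Ex (S : Finset ℕ) (n : ℕ) : Prop := ∀ l ∈ S, l.Prime ∧ l ≠ 3 ∧ l ∣ n ∧ ¬ l ^ 2 ∣ n

/-- The bound in one context (sections 1 to 5 and the majorant). -/
def CtxSt : Prop := ∃ (A : ℕ) (C : ℝ), 0 ≤ C ∧ ∀ (a b c z X₁ X₂ : ℕ) (S : Finset ℕ),
  0 < a → 0 < b → 0 < c → 0 < z → X₂ ≤ X₁ → Ex S (a * b * c) →
  (#{r ∈ Prs (a * b * c) z X₁ X₂ | Sol (a * r.1) (b * r.2) c} : ℝ) ≤
    C * 3 ^ om1 (a * b * c) / 3 ^ #S * #{r ∈ Prs (a * b * c) z X₁ X₂ | ELS S (a * r.1) (b * r.2) c} +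
      C * (∏ l ∈ S, (l : ℝ)) ^ A * X₁ * X₂ / (z : ℝ) ^ (1 / 72 : ℝ)

/-- The primes up to `y`. -/
def PL (y : ℕ) : Finset ℕ := (range (y + 1)).filter Nat.Prime

/-- The sieve factor. -/
def sv (y z k h : ℕ) : ℝ :=
  1 / Real.log y + (1 / 2 ^ h + (y : ℝ) ^ h / z) * 9 ^ k * Real.exp (2 * ∑ p ∈ PL y, (1 : ℝ) / p)

/-- The number of pairs that satisfy the local conditions. -/
def PairSt : Prop := ∀ (a b c y z k h X₁ X₂ : ℕ) (S : Finset ℕ),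
  2 ≤ y → y ≤ z → Even h → Ex S (a * b * c) → (∀ l ∈ S, l ≤ y) → #S ≤ k →
  (#{r ∈ Prs (a * b * c) z X₁ X₂ | ELS S (a * r.1) (b * r.2) c} : ℝ) ≤
    X₁ * X₂ * sv y z k h ^ 2 / 3 ^ #{l ∈ S | l % 3 = 1}

/-- The weight of one coefficient. -/
def gw (w y n : ℕ) : ℝ := ∏ l ∈ n.primeFactors, if w < l ∧ l ≤ y then (1 / 3 : ℝ) else 3

/-- The Euler product. -/
def EulSt : Prop := ∃ C : ℝ, 0 ≤ C ∧ ∀ w y H : ℕ, 2 ≤ w → w ≤ y → y ≤ H →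
  (∑ n ∈ Icc 1 H, gw w y n / n) ^ 3 ≤
    C * Real.log w ^ 8 * Real.log H ^ 9 / Real.log y ^ 8

/-- No square of a prime above `w` divides `n`. -/
def Sq (w n : ℕ) : Prop := ∀ p : ℕ, p.Prime → w < p → ¬ p ^ 2 ∣ n

/-- The box of positive coefficients. -/
def Box (H : ℕ) : Finset (ℕ × ℕ × ℕ) := Icc 1 H ×ˢ Icc 1 H ×ˢ Icc 1 H

/-- A good coefficient: few prime factors, one of them large. -/
def Gd (z K n : ℕ) : Prop := n.primeFactors.card ≤ K ∧ ∃ p : ℕ, p.Prime ∧ z < p ∧ p ∣ n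

/-- Good triples. -/
def Good (w z K : ℕ) (t : ℕ × ℕ × ℕ) : Prop :=
  Gd z K t.1 ∧ Gd z K t.2.1 ∧ Gd z K t.2.2 ∧ Sq w (t.1 * t.2.1 * t.2.2)

/-- The triples that are not good. -/
def BadSt : Prop := ∃ C : ℝ, 0 ≤ C ∧ ∀ w z K H : ℕ, 1 ≤ w → 2 ≤ H → z ^ (2 * K) ≤ H →
  (#{t ∈ Box H | ¬ Good w z K t} : ℝ) ≤
    C * (H : ℝ) ^ 3 * (1 / w + 1 / √H + (3 / 4) ^ K * Real.log H ^ 2)

/-- The good soluble triples. -/
def GoodSt : Prop := ∃ (A : ℕ) (C : ℝ), 0 ≤ C ∧ ∀ w y z K h H : ℕ, 3 ≤ w → w ≤ y → y ≤ z → Even h →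
  (#{t ∈ Box H | Good w z K t ∧ Sol t.1 t.2.1 t.2.2} : ℝ) ≤
    C * (H : ℝ) ^ 3 * (sv y z (3 * K) h ^ 2 / Real.log z * (∑ n ∈ Icc 1 H, gw w y n / n) ^ 3 +
      (y : ℝ) ^ (A * K) * (1 + Real.log H) ^ 2 / (z : ℝ) ^ (1 / 72 : ℝ))

/-- The upper bound for positive coefficients. -/
def UpSt : Prop := ∃ C : ℝ, ∀ᶠ H : ℕ in Filter.atTop,
  (#{t ∈ Box H | Sol t.1 t.2.1 t.2.2} : ℝ) ≤
    C * (H : ℝ) ^ 3 * Real.log (Real.log H) ^ 40 / Real.log H ^ 2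

/-- Squarefree numbers with all prime factors congruent to two modulo three. -/
def NN (n : ℕ) : Prop := Squarefree n ∧ ∀ p : ℕ, p.Prime → p ∣ n → p % 3 = 2

/-- Local solubility on the subfamily. -/
def LocSt : Prop := ∀ a b c : ℕ, NN a → NN b → NN c → a % 27 = b % 27 → Loc a b c

/-- The size of the subfamily. -/
def NNSt : Prop := ∃ c : ℝ, 0 < c ∧ ∀ᶠ H : ℕ in Filter.atTop,
  c * H / √(Real.log H) ≤ #{n ∈ Icc 1 H | NN n}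

/-- The lower bound for positive coefficients. -/
def LowSt : Prop := ∃ c : ℝ, 0 < c ∧ ∀ᶠ H : ℕ in Filter.atTop,
  c * (H : ℝ) ^ 3 / √(Real.log H) ^ 3 ≤ #{t ∈ Box H | Loc t.1 t.2.1 t.2.2}

end Pool.Agent.Lib.MP_65b7ad_nt.DC
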