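import Pool.Agent.Lib.MP_65b7ad_nt.DC.Cnt

/-!
Diagonal plane cubics: variants of two statements that allow equal primes.
-/

open Finset

noncomputable section

namespace Pool.Agent.Lib.MP_65b7ad_nt.DC

open Classical

/-- The pairs of primes of a context. -/
def Prs2 (n z X₁ X₂ : ℕ) : Finset (ℕ × ℕ) :=
  {r ∈ Ioc z X₁ ×ˢ Ioc z X₂ | r.1.Prime ∧ r.2.Prime ∧ ¬ r.1 ∣ n ∧ ¬ r.2 ∣ n}

/-- The bound in one context. -/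
def CtxSt2 : Prop := ∃ (A : ℕ) (C : ℝ), 0 ≤ C ∧ ∀ (a b c z X₁ X₂ : ℕ) (S : Finset ℕ),
  0 < a → 0 < b → 0 < c → 0 < z → X₂ ≤ X₁ → Ex S (a * b * c) →
  (#{r ∈ Prs (a * b * c) z X₁ X₂ | Sol (a * r.1) (b * r.2) c} : ℝ) ≤
    C * 3 ^ om1 (a * b * c) / 3 ^ #S *
        #{r ∈ Prs2 (a * b * c) z X₁ X₂ | ELS S (a * r.1) (b * r.2) c} +
      C * (∏ l ∈ S, (l : ℝ)) ^ A * X₁ * X₂ / (z : ℝ) ^ (1 / 72 : ℝ)

/-- The number of pairs that satisfy the local conditions. -/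
def PairSt2 : Prop := ∀ (a b c y z k h X₁ X₂ : ℕ) (S : Finset ℕ),
  2 ≤ y → y ≤ z → Even h → Ex S (a * b * c) → (∀ l ∈ S, l ≤ y) → #S ≤ k →
  (#{r ∈ Prs2 (a * b * c) z X₁ X₂ | ELS S (a * r.1) (b * r.2) c} : ℝ) ≤
    X₁ * X₂ * sv y z k h ^ 2 / 3 ^ #{l ∈ S | l % 3 = 1}

end Pool.Agent.Lib.MP_65b7ad_nt.DC
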